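import Mathlib

/-!
# Glynn's formula for the `(p-1)`-st power of a determinant in characteristic `p`
-/

set_option autoImplicit false

namespace Pool.Agent.H604R2.LEC

open MvPolynomial Finset

variable {p : ℕ} [Fact p.Prime]

theorem sum_pow_pred : ∑ z : ZMod p, z ^ (p - 1) = -1 := by
  have hp : 0 < p - 1 := Nat.sub_pos_of_lt (Fact.out : p.Prime).one_lt
  have h : ∀ z : ZMod p, z ^ (p - 1) = if z = 0 then 0 else 1 := by
    intro z
    split_ifs with hz
    · rw [hz, zero_pow (by omega)]
    · exact ZMod.pow_card_sub_one_eq_one hz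
  simp_rw [h]
  rw [← Finset.sum_filter_add_sum_filter_not univ (fun z : ZMod p => z = 0)]
  rw [Finset.sum_congr rfl (g := fun _ => (0 : ZMod p))
    (by intro x hx; rw [Finset.mem_filter] at hx; rw [if_pos hx.2])]
  rw [Finset.sum_congr (s₁ := univ.filter (fun z : ZMod p => ¬ z = 0)) rfl
    (g := fun _ => (1 : ZMod p))
    (by intro x hx; rw [Finset.mem_filter] at hx; rw [if_neg hx.2])]
  rw [Finset.sum_const_zero, zero_add, Finset.sum_const, nsmul_eq_mul, mul_one]
  have hc : (univ.filter (fun z : ZMod p => ¬ z = 0)).card = p - 1 := by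
    rw [Finset.filter_not, Finset.filter_eq' univ (0 : ZMod p), if_pos (Finset.mem_univ _)]
    rw [Finset.card_sdiff_of_subset (by simp), Finset.card_univ, ZMod.card, Finset.card_singleton]
  rw [hc, Nat.cast_sub (by omega)]
  simp

/-- Glynn's formula at points. -/
theorem det_pow_point {n : ℕ} (hn : Even n) (A : Matrix (Fin n) (Fin n) (ZMod p)) :
    A.det ^ (p - 1) = ∑ y : Fin n → ZMod p, ∏ i, (A.mulVec y i) ^ (p - 1) := by
  have hp : 0 < p - 1 := Nat.sub_pos_of_lt (Fact.out : p.Prime).one_lt
  by_cases hA : A.det = 0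
  · rw [hA, zero_pow (by omega)]
    obtain ⟨v, hv, hAv⟩ := Matrix.exists_mulVec_eq_zero_iff.mpr hA
    obtain ⟨j, hj⟩ : ∃ j, v j ≠ 0 := by
      by_contra h
      push Not at h
      exact hv (funext h)
    set g : (Fin n → ZMod p) → ZMod p := fun y => ∏ i, (A.mulVec y i) ^ (p - 1) with hg
    have hshift : ∀ y, g (y + v) = g y := by
      intro y
      simp only [hg, Matrix.mulVec_add, hAv, add_zero]
    have h1 : ∑ y, g y * (y j / v j) = ∑ y, g (y + v) * ((y + v) j / v j) :=
      (Equiv.sum_comp (Equiv.addRight v) (fun y => g y * (y j / v j))).symm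
    have h2 : ∑ y, g (y + v) * ((y + v) j / v j) = ∑ y, g y * (y j / v j) + ∑ y, g y := by
      rw [← Finset.sum_add_distrib]
      apply Finset.sum_congr rfl
      intro y _
      rw [hshift, Pi.add_apply, add_div, div_self hj]
      ring
    rw [h2] at h1
    have h3 : ∑ y, g y = 0 := by linear_combination -h1
    exact h3.symm
  · rw [ZMod.pow_card_sub_one_eq_one hA]
    have hu : IsUnit A := (Matrix.isUnit_iff_isUnit_det A).2 (Ne.isUnit hA)
    let e : (Fin n → ZMod p) ≃ (Fin n → ZMod p) :=
      { toFun := A.mulVec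
        invFun := A⁻¹.mulVec
        left_inv := fun y => by
          rw [Matrix.mulVec_mulVec, Matrix.nonsing_inv_mul A (Ne.isUnit hA), Matrix.one_mulVec]
        right_inv := fun y => by
          rw [Matrix.mulVec_mulVec, Matrix.mul_nonsing_inv A (Ne.isUnit hA), Matrix.one_mulVec] }
    have h1 : ∑ y : Fin n → ZMod p, ∏ i, (A.mulVec y i) ^ (p - 1) =
        ∑ z : Fin n → ZMod p, ∏ i, (z i) ^ (p - 1) :=
      Equiv.sum_comp e (fun z => ∏ i, (z i) ^ (p - 1))
    rw [h1, ← Fintype.piFinset_univ, ← Finset.prod_univ_sum (fun _ => univ) (fun _ z => z ^ (p - 1))]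
    rw [sum_pow_pred, Finset.prod_const, Finset.card_univ, Fintype.card_fin, hn.neg_one_pow]

/-- the generic matrix -/
noncomputable def gen (p n : ℕ) : Matrix (Fin n) (Fin n) (MvPolynomial (Fin n × Fin n) (ZMod p)) :=
  Matrix.of fun i j => X (i, j)

theorem degreeOf_prod_le' {σ ι R : Type*} [CommSemiring R] (s : Finset ι) (e : σ)
    (f : ι → MvPolynomial σ R) (i₀ : ι) (d : ℕ) (h0 : degreeOf e (f i₀) ≤ d)
    (h1 : ∀ i ∈ s, i ≠ i₀ → degreeOf e (f i) = 0) : degreeOf e (∏ i ∈ s, f i) ≤ d := by
  classical
  refine (degreeOf_prod_le e s f).trans ?_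
  by_cases hi : i₀ ∈ s
  · rw [Finset.sum_eq_single_of_mem i₀ hi h1]
    exact h0
  · rw [Finset.sum_eq_zero (fun i his => h1 i his (fun h => hi (h ▸ his)))]
    exact Nat.zero_le _

theorem degreeOf_sum_le' {σ ι R : Type*} [CommSemiring R] (s : Finset ι) (e : σ)
    (f : ι → MvPolynomial σ R) (d : ℕ) (h : ∀ i ∈ s, degreeOf e (f i) ≤ d) :
    degreeOf e (∑ i ∈ s, f i) ≤ d :=
  (degreeOf_sum_le e s f).trans (Finset.sup_le h)

/-- Glynn's formula, generic version. -/
theorem det_pow_gen {n : ℕ} (hn : Even n) :
    (gen p n).det ^ (p - 1) = ∑ y : Fin n → ZMod p, ∏ i, (∑ j, X (i, j) * C (y j)) ^ (p - 1) := by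
  rw [← sub_eq_zero]
  apply eq_zero_of_eval_eq_zero
  · intro v
    rw [map_sub, map_pow, sub_eq_zero]
    have h1 : eval v (gen p n).det = (Matrix.of fun i j => v (i, j)).det := by
      rw [RingHom.map_det]
      congr 1
      ext i j
      simp [gen]
    rw [h1, det_pow_point hn, map_sum]
    apply Finset.sum_congr rfl
    intro y _
    rw [map_prod]
    apply Finset.prod_congr rfl
    intro i _
    rw [map_pow, map_sum]
    congr 1
    simp [Matrix.mulVec, dotProduct]
  · rw [mem_restrictDegree, ZMod.card]
    intro s hs e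
    have key : degreeOf e ((gen p n).det ^ (p - 1) -
        ∑ y : Fin n → ZMod p, ∏ i, (∑ j, X (i, j) * C (y j)) ^ (p - 1)) ≤ p - 1 := by
      refine (degreeOf_sub_le _ _ _).trans (max_le ?_ ?_)
      · refine (degreeOf_pow_le _ _ _).trans ?_
        have h1 : degreeOf e (gen p n).det ≤ 1 := by
          rw [Matrix.det_apply]
          apply degreeOf_sum_le'
          intro σ _
          have h2 : degreeOf e (∏ i, gen p n (σ i) i) ≤ 1 := by
            apply degreeOf_prod_le' _ _ _ e.2 1
            · classical
              rw [gen, Matrix.of_apply, degreeOf_X]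
              split_ifs <;> simp
            · intro i _ hi
              rw [gen, Matrix.of_apply]
              apply degreeOf_X_of_ne
              intro h
              apply hi
              rw [h]
          rcases Int.units_eq_one_or (Equiv.Perm.sign σ) with h | h
          · rw [h, one_smul]; exact h2
          · rw [h, Units.neg_smul, one_smul, degreeOf_neg]; exact h2
        calc (p - 1) * degreeOf e (gen p n).det ≤ (p - 1) * 1 := Nat.mul_le_mul_left _ h1
          _ = p - 1 := mul_one _
      · apply degreeOf_sum_le'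
        intro y _
        apply degreeOf_prod_le' _ _ _ e.1 (p - 1)
        · refine (degreeOf_pow_le _ _ _).trans ?_
          have h1 : degreeOf e (∑ j, X (e.1, j) * C (y j) : MvPolynomial (Fin n × Fin n) (ZMod p)) ≤ 1 := by
            apply degreeOf_sum_le'
            intro j _
            refine (degreeOf_mul_C_le _ _ _).trans ?_
            classical
            rw [degreeOf_X]
            split_ifs <;> simp
          calc (p - 1) * _ ≤ (p - 1) * 1 := Nat.mul_le_mul_left _ h1
            _ = p - 1 := mul_one _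
        · intro i _ hi
          have h1 : degreeOf e (∑ j, X (i, j) * C (y j) : MvPolynomial (Fin n × Fin n) (ZMod p)) ≤ 0 := by
            apply degreeOf_sum_le'
            intro j _
            refine (degreeOf_mul_C_le _ _ _).trans ?_
            rw [degreeOf_X_of_ne]
            intro h
            apply hi
            rw [h]
          have h2 := degreeOf_pow_le e
            (∑ j, X (i, j) * C (y j) : MvPolynomial (Fin n × Fin n) (ZMod p)) (p - 1)
          have h3 : (p - 1) * degreeOf e
            (∑ j, X (i, j) * C (y j) : MvPolynomial (Fin n × Fin n) (ZMod p)) = 0 := by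
            rw [Nat.le_zero.1 h1, mul_zero]
          omega
    exact (degreeOf_le_iff.1 key) s hs

/-- Glynn's formula over commutative algebras over `ZMod p`. -/
theorem det_pow_alg {R : Type*} [CommRing R] [Algebra (ZMod p) R] {n : ℕ} (hn : Even n)
    (A : Matrix (Fin n) (Fin n) R) :
    A.det ^ (p - 1) = ∑ y : Fin n → ZMod p, ∏ i, (∑ j, A i j * algebraMap (ZMod p) R (y j)) ^ (p - 1) := by
  have h := congrArg (aeval (fun e : Fin n × Fin n => A e.1 e.2)) (det_pow_gen (p := p) (n := n) hn)
  rw [map_pow, map_sum] at h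
  have h1 : aeval (fun e : Fin n × Fin n => A e.1 e.2) (gen p n).det = A.det := by
    change (aeval (fun e : Fin n × Fin n => A e.1 e.2) :
      MvPolynomial (Fin n × Fin n) (ZMod p) →ₐ[ZMod p] R).toRingHom (gen p n).det = _
    rw [RingHom.map_det]
    congr 1
    ext i j
    simp [gen]
  rw [h1] at h
  rw [h]
  apply Finset.sum_congr rfl
  intro y _
  rw [map_prod]
  apply Finset.prod_congr rfl
  intro i _
  rw [map_pow, map_sum]
  congr 1
  apply Finset.sum_congr rfl
  intro j _
  rw [map_mul, aeval_X, aeval_C]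

end Pool.Agent.H604R2.LEC
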