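import Pool.Agent.H604R2.LEC.Deriv
import Pool.Agent.H604R2.LEC.Glynn

/-!
# Evaluation of the multilinear coefficient modulo `p`
-/

set_option autoImplicit false

namespace Pool.Agent.H604R2.LEC

open MvPolynomial Finset Pool.Agent.Helper929

/-- The sign of a vertex. -/
def sz {n : ℕ} (i : Fin n) : ℤ := if i < i.rev then 1 else -1

theorem sz_sq {n : ℕ} (i : Fin n) : sz i * sz i = 1 := by
  unfold sz
  split_ifs <;> norm_num

theorem rev_ne {n : ℕ} (hn : Even n) (i : Fin n) : i.rev ≠ i := by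
  intro h
  have h1 := congrArg Fin.val h
  rw [Fin.val_rev] at h1
  obtain ⟨m, rfl⟩ := hn
  omega

theorem sz_rev {n : ℕ} (hn : Even n) (i : Fin n) : sz i.rev = - sz i := by
  unfold sz
  rw [Fin.rev_rev]
  rcases lt_trichotomy i i.rev with h | h | h
  · rw [if_pos h, if_neg (not_lt.2 h.le)]
  · exact absurd h.symm (rev_ne hn i)
  · rw [if_neg (not_lt.2 h.le), if_pos h]
    norm_num

/-- Permutations commuting with the reversal. -/
def BP {n : ℕ} (τ : Equiv.Perm (Fin n)) : Prop := ∀ j, τ j.rev = (τ j).rev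

instance {n : ℕ} (τ : Equiv.Perm (Fin n)) : Decidable (BP τ) :=
  inferInstanceAs (Decidable (∀ j, τ j.rev = (τ j).rev))

section sign

variable {n : ℕ}

/-- an auxiliary skew-symmetric matrix -/
def A0 (n : ℕ) : Matrix (Fin n) (Fin n) ℚ :=
  Matrix.of fun a b => if b = a.rev then (-1) ^ (a : ℕ) else 0

theorem neg_one_pow_rev (hn : Even n) (a : Fin n) :
    ((-1 : ℚ) ^ (a.rev : ℕ)) = - (-1) ^ (a : ℕ) := by
  have h1 : (a.rev : ℕ) + (a : ℕ) + 1 = n := by
    rw [Fin.val_rev]
    omega
  have h2 : ((-1 : ℚ) ^ ((a.rev : ℕ) + (a : ℕ) + 1)) = 1 := by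
    rw [h1]
    exact hn.neg_one_pow
  have h3 : ((-1 : ℚ) ^ (a : ℕ)) * ((-1 : ℚ) ^ (a : ℕ)) = 1 := by
    rw [← pow_add, ← two_mul, pow_mul]
    norm_num
  rw [pow_add, pow_add, pow_one] at h2
  linear_combination (-(-1 : ℚ) ^ (a : ℕ)) * h2 - ((-1 : ℚ) ^ (a.rev : ℕ)) * h3

theorem A0_skew (hn : Even n) (a b : Fin n) : A0 n a b = - A0 n b a := by
  unfold A0
  rw [Matrix.of_apply, Matrix.of_apply]
  by_cases h : b = a.rev
  · subst h
    rw [if_pos rfl, if_pos (Fin.rev_rev a).symm, neg_one_pow_rev hn, neg_neg]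
  · rw [if_neg h, if_neg, neg_zero]
    rintro rfl
    exact h (Fin.rev_rev b).symm

theorem A0_pf_ne (hn : Even n) : pf n (A0 n) ≠ 0 := by
  intro h
  have h1 := pf_sq n (A0 n) (A0_skew hn)
  rw [h, zero_pow (by norm_num)] at h1
  have h2 : A0 n * (A0 n).transpose = 1 := by
    ext a b
    rw [Matrix.mul_apply]
    rw [Finset.sum_eq_single a.rev]
    · rw [Matrix.transpose_apply, A0, Matrix.of_apply, Matrix.of_apply, if_pos rfl]
      by_cases hab : a = b
      · subst hab
        rw [if_pos rfl, Matrix.one_apply_eq, ← pow_add, ← two_mul, pow_mul]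
        norm_num
      · rw [if_neg, mul_zero, Matrix.one_apply_ne hab]
        intro h3
        exact hab (Fin.rev_injective h3)
    · intro j _ hj
      rw [A0, Matrix.of_apply, if_neg hj, zero_mul]
    · intro h3
      exact absurd (Finset.mem_univ _) h3
  have h3 := congrArg Matrix.det h2
  rw [Matrix.det_mul, ← h1, zero_mul, Matrix.det_one] at h3
  exact zero_ne_one h3

theorem sign_B (hn : Even n) {τ : Equiv.Perm (Fin n)} (hτ : BP τ) :
    (Equiv.Perm.sign τ : ℤ) * ∏ i, sz i ^ ((τ i : ℕ) + (i : ℕ)) = 1 := by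
  set d : Fin n → ℚ := fun i => (sz i : ℚ) ^ ((τ i : ℕ) + (i : ℕ)) with hd
  set P : Matrix (Fin n) (Fin n) ℚ := Matrix.diagonal d * τ.permMatrix ℚ with hP
  have hPe : ∀ i j, P i j = if j = τ i then d i else 0 := by
    intro i j
    rw [hP, Matrix.diagonal_mul, Equiv.Perm.permMatrix, PEquiv.toMatrix_apply]
    simp only [Equiv.toPEquiv_apply, Option.mem_def, Option.some.injEq]
    by_cases h : j = τ i
    · rw [if_pos h, if_pos h.symm, mul_one]
    · rw [if_neg h, if_neg (fun h2 => h h2.symm), mul_zero]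
  have h1 : P * A0 n * P.transpose = A0 n := by
    ext i j
    rw [Matrix.mul_apply, Finset.sum_eq_single (τ j)]
    · rw [Matrix.transpose_apply, hPe, if_pos rfl, Matrix.mul_apply, Finset.sum_eq_single (τ i)]
      · rw [hPe, if_pos rfl, A0, Matrix.of_apply, Matrix.of_apply]
        by_cases h : j = i.rev
        · subst h
          rw [hτ i, if_pos rfl, if_pos rfl]
          simp only [hd]
          have hr := hτ i
          have e1 : ((τ i.rev : Fin n) : ℕ) + (τ i : ℕ) + 1 = n := by
            rw [hr, Fin.val_rev]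
            omega
          have e2 : (i.rev : ℕ) + (i : ℕ) + 1 = n := by
            rw [Fin.val_rev]
            omega
          obtain ⟨m, hm⟩ := hn
          rcases lt_trichotomy i i.rev with h | h | h
          · have s1 : sz i = 1 := by unfold sz; rw [if_pos h]
            have s2 : sz i.rev = -1 := by rw [sz_rev ⟨m, hm⟩, s1]
            rw [s1, s2]
            push_cast
            rw [one_pow, one_mul]
            have e3 : (τ i : ℕ) + ((τ i.rev : ℕ) + (i.rev : ℕ)) + ((i : ℕ) + 2) = 2 * n := by omega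
            rw [← pow_add]
            have h3 : ((-1 : ℚ) ^ ((τ i : ℕ) + ((τ i.rev : ℕ) + (i.rev : ℕ)) + ((i : ℕ) + 2))) = 1 := by
              rw [e3, pow_mul]
              norm_num
            have h4 : ((-1 : ℚ) ^ (i : ℕ)) * ((-1 : ℚ) ^ (i : ℕ)) = 1 := by
              rw [← pow_add, ← two_mul, pow_mul]
              norm_num
            rw [pow_add, pow_add _ (i : ℕ) 2] at h3
            linear_combination ((-1 : ℚ) ^ (i : ℕ)) * h3 -
              ((-1 : ℚ) ^ ((τ i : ℕ) + ((τ i.rev : ℕ) + (i.rev : ℕ)))) * h4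
          · exact absurd h.symm (rev_ne ⟨m, hm⟩ i)
          · have s1 : sz i = -1 := by unfold sz; rw [if_neg (not_lt.2 h.le)]
            have s2 : sz i.rev = 1 := by rw [sz_rev ⟨m, hm⟩, s1, neg_neg]
            rw [s1, s2]
            push_cast
            rw [one_pow, mul_one, ← pow_add, show (τ i : ℕ) + (i : ℕ) + (τ i : ℕ) =
              2 * (τ i : ℕ) + i by ring, pow_add, pow_mul]
            norm_num
        · rw [if_neg h, if_neg, mul_zero, zero_mul]
          intro h2
          apply h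
          apply τ.injective
          rw [h2, hτ]
      · intro k _ hk
        rw [hPe, if_neg hk, zero_mul]
      · intro h3
        exact absurd (Finset.mem_univ _) h3
    · intro k _ hk
      rw [Matrix.transpose_apply, hPe, if_neg hk, mul_zero]
    · intro h3
      exact absurd (Finset.mem_univ _) h3
  have h2 := pf_gram (A0 n) (A0_skew hn) P
  rw [h1] at h2
  have h3 : P.det = 1 := by
    have h4 : (P.det - 1) * pf n (A0 n) = 0 := by linear_combination -h2
    rcases mul_eq_zero.1 h4 with h5 | h5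
    · linear_combination h5
    · exact absurd h5 (A0_pf_ne hn)
  rw [hP, Matrix.det_mul, Matrix.det_diagonal, Matrix.det_permutation] at h3
  have h5 : (((Equiv.Perm.sign τ : ℤ) * ∏ i, sz i ^ ((τ i : ℕ) + (i : ℕ)) : ℤ) : ℚ) = 1 := by
    push_cast
    rw [mul_comm]
    exact h3
  exact_mod_cast h5

end sign

section modp

variable {p : ℕ} [Fact p.Prime]

theorem sum_pow_ZMod (e : ℕ) (he : 0 < e) :
    ∑ x : ZMod p, x ^ e = if p - 1 ∣ e then -1 else 0 := by
  classical
  let φ : (ZMod p)ˣ ↪ ZMod p := ⟨fun x ↦ x, Units.val_injective⟩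
  have h1 : univ.map φ = univ \ {0} := by
    ext x
    simpa only [mem_map, mem_univ, Function.Embedding.coeFn_mk, true_and, mem_sdiff,
      mem_singleton, φ] using! isUnit_iff_ne_zero
  have h2 : ∑ x : ZMod p, x ^ e = ∑ x ∈ univ \ {(0 : ZMod p)}, x ^ e := by
    rw [← sum_sdiff ({0} : Finset (ZMod p)).subset_univ, sum_singleton, zero_pow (by omega),
      add_zero]
  have h3 : ∑ x ∈ univ \ {(0 : ZMod p)}, x ^ e = ∑ x : (ZMod p)ˣ, ((x : ZMod p) ^ e) := by
    rw [← h1, univ.sum_map φ]
    rfl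
  have h4 := FiniteField.sum_pow_units (ZMod p) e
  rw [ZMod.card] at h4
  rw [h2, h3]
  exact h4

variable {n : ℕ}

/-- The matrix `J`, above the diagonal. -/
def cJ (p n : ℕ) : Ed n → ZMod p := fun e => if e.1.2 = e.1.1.rev then 1 else 0

theorem sum_cJ (hn : Even n) (y : Fin n → ZMod p) (i : Fin n) :
    ∑ j, skew (cJ p n) i j * y j = (sz i : ZMod p) * y i.rev := by
  rw [Finset.sum_eq_single i.rev]
  · congr 1
    unfold sz
    rcases lt_trichotomy i i.rev with h | h | h
    · rw [skew_lt _ h, if_pos h, cJ, if_pos rfl]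
      simp
    · exact absurd h.symm (rev_ne hn i)
    · rw [skew_gt _ h, if_neg (not_lt.2 h.le), cJ, if_pos (Fin.rev_rev i).symm]
      simp
  · intro j _ hj
    rcases lt_trichotomy i j with h | h | h
    · rw [skew_lt _ h, cJ, if_neg hj, zero_mul]
    · subst h
      rw [skew_self, zero_mul]
    · rw [skew_gt _ h, cJ, if_neg, neg_zero, zero_mul]
      rintro h2
      apply hj
      change i = j.rev at h2
      rw [h2, Fin.rev_rev]
  · intro h
    exact absurd (Finset.mem_univ _) h

theorem skew_add_C (c : Ed n → ZMod p) (i j : Fin n) :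
    skew (fun e => (X e + C (c e) : MvPolynomial (Ed n) (ZMod p))) i j =
      skew (fun e => X e) i j + C (skew c i j) := by
  rcases lt_trichotomy i j with h | h | h
  · rw [skew_lt _ h, skew_lt _ h, skew_lt _ h]
  · subst h
    rw [skew_self, skew_self, skew_self]
    simp
  · rw [skew_gt _ h, skew_gt _ h, skew_gt _ h, C_neg]
    ring

/-- The determinant as a sum of products of linear forms. -/
theorem det_eq_Rw (hn : Even n) :
    (skew (fun e => (X e + C (cJ p n e) : MvPolynomial (Ed n) (ZMod p)))).det ^ (p - 1) =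
      ∑ y : Fin n → ZMod p, ∏ i, Rw (fun i => (sz i : ZMod p) * y i.rev) y i ^ (p - 1) := by
  rw [det_pow_alg (p := p) hn]
  apply Finset.sum_congr rfl
  intro y _
  apply Finset.prod_congr rfl
  intro i _
  congr 1
  rw [Rw, ← sum_cJ hn, map_sum, ← Finset.sum_add_distrib]
  apply Finset.sum_congr rfl
  intro j _
  rw [skew_add_C, map_mul]
  have h1 : algebraMap (ZMod p) (MvPolynomial (Ed n) (ZMod p)) (y j) = C (y j) := rfl
  rw [h1]
  ring

theorem inner_sum (hn : Even n) (hpn : p = n + 1) (σ : Equiv.Perm (Fin n)) :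
    ∑ y : Fin n → ZMod p, ∏ i : Fin n, (((n.descFactorial (i : ℕ) : ℕ) : ZMod p) *
      y (σ i) ^ (i.rev : ℕ) * ((sz (σ i) : ZMod p) * y (σ i).rev) ^ (n - (i : ℕ))) =
    (∏ i : Fin n, ((n.descFactorial (i : ℕ) : ℕ) : ZMod p)) *
      (∏ j : Fin n, (sz j : ZMod p) ^ (n - (σ.symm j : ℕ))) *
      if BP σ.symm then 1 else 0 := by
  have hn0 : 0 < n ∨ n = 0 := by omega
  have h1 : ∀ y : Fin n → ZMod p, ∏ i : Fin n, (((n.descFactorial (i : ℕ) : ℕ) : ZMod p) *
      y (σ i) ^ (i.rev : ℕ) * ((sz (σ i) : ZMod p) * y (σ i).rev) ^ (n - (i : ℕ))) =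
      (∏ i : Fin n, ((n.descFactorial (i : ℕ) : ℕ) : ZMod p)) *
      (∏ j : Fin n, (sz j : ZMod p) ^ (n - (σ.symm j : ℕ))) *
      ∏ j : Fin n, y j ^ (((σ.symm j).rev : ℕ) + (n - (σ.symm j.rev : ℕ))) := by
    intro y
    have e1 : (∏ j : Fin n, (sz j : ZMod p) ^ (n - (σ.symm j : ℕ))) =
        ∏ i : Fin n, (sz (σ i) : ZMod p) ^ (n - (i : ℕ)) := by
      rw [← Equiv.prod_comp σ]
      apply Finset.prod_congr rfl
      intro i _
      rw [Equiv.symm_apply_apply]
    have e2 : ∏ j : Fin n, y j ^ (((σ.symm j).rev : ℕ) + (n - (σ.symm j.rev : ℕ))) =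
        (∏ i : Fin n, y (σ i) ^ (i.rev : ℕ)) * ∏ i : Fin n, y (σ i).rev ^ (n - (i : ℕ)) := by
      simp_rw [pow_add]
      rw [Finset.prod_mul_distrib]
      congr 1
      · rw [← Equiv.prod_comp σ]
        apply Finset.prod_congr rfl
        intro i _
        rw [Equiv.symm_apply_apply]
      · rw [← Equiv.prod_comp (σ.trans Fin.revPerm)]
        apply Finset.prod_congr rfl
        intro i _
        simp
    rw [e1, e2, ← Finset.prod_mul_distrib, ← Finset.prod_mul_distrib, ← Finset.prod_mul_distrib]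
    apply Finset.prod_congr rfl
    intro i _
    rw [mul_pow]
    ring
  simp_rw [h1]
  rw [← Finset.mul_sum]
  congr 1
  have h2 : ∑ y : Fin n → ZMod p, ∏ j : Fin n, y j ^ (((σ.symm j).rev : ℕ) +
      (n - (σ.symm j.rev : ℕ))) = ∏ j : Fin n, ∑ t : ZMod p, t ^ (((σ.symm j).rev : ℕ) +
      (n - (σ.symm j.rev : ℕ))) := by
    rw [← Fintype.piFinset_univ, ← Finset.prod_univ_sum (fun _ => univ)
      (fun j t => t ^ (((σ.symm j).rev : ℕ) + (n - (σ.symm j.rev : ℕ))))]
  rw [h2]
  have h3 : ∀ j : Fin n, ∑ t : ZMod p, t ^ (((σ.symm j).rev : ℕ) +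
      (n - (σ.symm j.rev : ℕ))) = if σ.symm j.rev = (σ.symm j).rev then -1 else 0 := by
    intro j
    have hlt := (σ.symm j.rev).isLt
    have hlt2 := (σ.symm j).isLt
    rw [sum_pow_ZMod _ (by omega)]
    have hr : ((σ.symm j).rev : ℕ) = n - ((σ.symm j : ℕ) + 1) := Fin.val_rev _
    have hne : (σ.symm j.rev : ℕ) ≠ (σ.symm j : ℕ) := by
      intro h
      have h4 := σ.symm.injective (Fin.ext h)
      exact rev_ne hn j h4
    have hiff : p - 1 ∣ ((σ.symm j).rev : ℕ) + (n - (σ.symm j.rev : ℕ)) ↔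
        σ.symm j.rev = (σ.symm j).rev := by
      rw [hpn, Nat.add_sub_cancel, Fin.ext_iff, hr]
      constructor
      · rintro ⟨q, hq⟩
        have hq1 : q = 1 := by
          rcases Nat.lt_or_ge q 1 with h | h
          · have : q = 0 := by omega
            subst this
            rw [mul_zero] at hq
            omega
          · rcases Nat.lt_or_ge 1 q with h5 | h5
            · have h6 : n * 2 ≤ n * q := Nat.mul_le_mul_left _ h5
              omega
            · omega
        subst hq1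
        omega
      · intro h
        rw [h]
        exact ⟨1, by omega⟩
    by_cases h : σ.symm j.rev = (σ.symm j).rev
    · rw [if_pos h, if_pos (hiff.2 h)]
    · rw [if_neg h, if_neg (fun h2 => h (hiff.1 h2))]
  simp_rw [h3]
  by_cases hB : BP σ.symm
  · rw [if_pos hB]
    rw [Finset.prod_congr rfl (g := fun _ => (-1 : ZMod p))
      (fun j _ => by rw [if_pos (hB j)])]
    rw [Finset.prod_const, Finset.card_univ, Fintype.card_fin, hn.neg_one_pow]
  · rw [if_neg hB]
    unfold BP at hB
    push Not at hB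
    obtain ⟨j, hj⟩ := hB
    exact Finset.prod_eq_zero (Finset.mem_univ j) (if_neg hj)

/-- The number of permutations commuting with the reversal is not divisible by `p`. -/
theorem card_BP_ne (hpn : p = n + 1) :
    (((univ.filter (fun τ : Equiv.Perm (Fin n) => BP τ)).card : ℕ) : ZMod p) ≠ 0 := by
  rw [Ne, ZMod.natCast_eq_zero_iff]
  intro h
  let B : Subgroup (Equiv.Perm (Fin n)) :=
    { carrier := {τ | BP τ}
      mul_mem' := fun {a b} ha hb j => by
        change a (b j.rev) = (a (b j)).rev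
        rw [hb, ha]
      one_mem' := fun j => rfl
      inv_mem' := fun {a} ha j => by
        apply a.injective
        change a (a.symm j.rev) = a ((a.symm j).rev)
        rw [ha (a.symm j), Equiv.apply_symm_apply, Equiv.apply_symm_apply] }
  have h1 : Nat.card B = (univ.filter (fun τ : Equiv.Perm (Fin n) => BP τ)).card :=
    Nat.subtype_card _ (fun τ => by
      rw [Finset.mem_filter]
      exact ⟨fun h => h.2, fun h => ⟨Finset.mem_univ _, h⟩⟩)
  have h2 := Subgroup.card_subgroup_dvd_card B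
  rw [h1, Nat.card_eq_fintype_card, Fintype.card_perm, Fintype.card_fin] at h2
  have h3 := h.trans h2
  rw [(Fact.out : p.Prime).dvd_factorial] at h3
  omega

theorem descFactorial_ne (hpn : p = n + 1) {i : ℕ} (hi : i < n) :
    ((n.descFactorial i : ℕ) : ZMod p) ≠ 0 := by
  rw [Ne, ZMod.natCast_eq_zero_iff]
  intro h
  have h1 : p ∣ n.factorial := by
    rw [← Nat.factorial_mul_descFactorial hi.le]
    exact h.mul_left _
  rw [(Fact.out : p.Prime).dvd_factorial] at h1
  omega

/-- The multilinear coefficient is not zero. -/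
theorem coeff_det_ne (hn : Even n) (hpn : p = n + 1) :
    coeff (one' n) ((skew (fun e => (X e + C (cJ p n e) : MvPolynomial (Ed n) (ZMod p)))).det ^
      (p - 1)) ≠ 0 := by
  have hp1 : p - 1 = n := by omega
  rw [det_eq_Rw hn, coeff_sum]
  simp_rw [coeff_one_prod]
  rw [← Finset.mul_sum, Finset.sum_comm]
  simp_rw [← Finset.mul_sum, hp1]
  have h1 : ∀ σ : Equiv.Perm (Fin n), ((Equiv.Perm.sign σ : ℤ) : ZMod p) *
      ∑ y : Fin n → ZMod p, ∏ i : Fin n, (((n.descFactorial (i : ℕ) : ℕ) : ZMod p) *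
      y (σ i) ^ (i.rev : ℕ) * ((sz (σ i) : ZMod p) * y (σ i).rev) ^ (n - (i : ℕ))) =
      (∏ i : Fin n, ((n.descFactorial (i : ℕ) : ℕ) : ZMod p)) *
      (∏ j : Fin n, (sz j : ZMod p) ^ (n - (j : ℕ))) * if BP σ.symm then 1 else 0 := by
    intro σ
    rw [inner_sum hn hpn]
    by_cases hB : BP σ.symm
    · rw [if_pos hB, mul_one, mul_one]
      have h2 := sign_B hn hB
      rw [Equiv.Perm.sign_symm] at h2
      have h3 : ((((Equiv.Perm.sign σ : ℤ) * ∏ i, sz i ^ ((σ.symm i : ℕ) + (i : ℕ)) : ℤ)) :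
        ZMod p) = 1 := by rw [h2]; simp
      push_cast at h3
      have h4 : ∀ j : Fin n, (sz j : ZMod p) ^ (n - (σ.symm j : ℕ)) =
          (sz j : ZMod p) ^ ((σ.symm j : ℕ) + (j : ℕ)) * (sz j : ZMod p) ^ (n - (j : ℕ)) := by
        intro j
        have h5 := (σ.symm j).isLt
        have h6 := j.isLt
        rw [← pow_add]
        have h7 : (σ.symm j : ℕ) + (j : ℕ) + (n - (j : ℕ)) =
            (n - (σ.symm j : ℕ)) + 2 * (σ.symm j : ℕ) := by omega
        rw [h7, pow_add _ (n - (σ.symm j : ℕ)), pow_mul]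
        have h8 : (sz j : ZMod p) ^ 2 = 1 := by
          have := congrArg (Int.cast : ℤ → ZMod p) (sz_sq j)
          push_cast at this
          rw [pow_two]
          exact this
        rw [h8, one_pow, mul_one]
      simp_rw [h4]
      rw [Finset.prod_mul_distrib]
      linear_combination ((∏ i : Fin n, ((n.descFactorial (i : ℕ) : ℕ) : ZMod p)) *
        (∏ j : Fin n, (sz j : ZMod p) ^ (n - (j : ℕ)))) * h3
    · rw [if_neg hB]
      ring
  simp_rw [h1]
  rw [← Finset.mul_sum]
  have h2 : ∑ σ : Equiv.Perm (Fin n), (if BP σ.symm then (1 : ZMod p) else 0) =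
      (((univ.filter (fun τ : Equiv.Perm (Fin n) => BP τ)).card : ℕ) : ZMod p) := by
    rw [Finset.card_filter]
    push_cast
    exact Equiv.sum_comp (Equiv.inv (Equiv.Perm (Fin n)))
      (fun τ => if BP τ then (1 : ZMod p) else 0)
  rw [h2]
  refine mul_ne_zero ?_ (mul_ne_zero (mul_ne_zero ?_ ?_) (card_BP_ne hpn))
  · exact pow_ne_zero _ (neg_ne_zero.2 one_ne_zero)
  · exact Finset.prod_ne_zero_iff.2 fun i _ => descFactorial_ne hpn i.isLt
  · refine Finset.prod_ne_zero_iff.2 fun j _ => pow_ne_zero _ ?_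
    intro h
    have := congrArg (Int.cast : ℤ → ZMod p) (sz_sq j)
    push_cast at this
    rw [h, zero_mul] at this
    exact zero_ne_one this

end modp

end Pool.Agent.H604R2.LEC
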