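import Pool.Agent.H604R2.LEC.Count
import Pool.Agent.H604R2.LEC.Eval

/-!
# The list edge colouring theorem for complete graphs on `p - 1` vertices
-/

set_option autoImplicit false

namespace Pool.Agent.H604R2.LEC

open MvPolynomial Finset Pool.Agent.Helper929

section lagrange

variable {F : Type} [Field F] {k : ℕ} (s : Fin k → F)

/-- Lagrange weights -/
def lam (a : Fin k) : F := (∏ b ∈ univ.erase a, (s a - s b))⁻¹

theorem lam_ne (hs : Function.Injective s) (a : Fin k) : lam s a ≠ 0 := by
  unfold lam
  apply inv_ne_zero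
  rw [Finset.prod_ne_zero_iff]
  intro b hb h
  exact Finset.ne_of_mem_erase hb (hs (sub_eq_zero.1 h)).symm

theorem sum_lam (hs : Function.Injective s) {j : ℕ} (hj : j < k) :
    ∑ a, lam s a * s a ^ j = if j = k - 1 then 1 else 0 := by
  have h1 := Lagrange.coeff_eq_sum (s := (univ : Finset (Fin k))) (v := s) (P := Polynomial.X ^ j)
    (hs.injOn) (by
      rw [Polynomial.degree_X_pow, Finset.card_univ, Fintype.card_fin]
      exact_mod_cast hj)
  rw [Finset.card_univ, Fintype.card_fin, Polynomial.coeff_X_pow] at h1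
  simp only [Polynomial.eval_pow, Polynomial.eval_X] at h1
  have h2 : (if k - 1 = j then (1 : F) else 0) = if j = k - 1 then 1 else 0 := by
    by_cases h : j = k - 1
    · rw [if_pos h, if_pos h.symm]
    · rw [if_neg h, if_neg (fun h3 => h h3.symm)]
  rw [← h2, h1]
  apply Finset.sum_congr rfl
  intro a _
  rw [lam, div_eq_mul_inv, mul_comm]

variable {E : Type} [Fintype E] [DecidableEq E]

/-- The exponent `k - 1` for every variable. -/
noncomputable def ex (E : Type) [Fintype E] (k : ℕ) : E →₀ ℕ :=
  Finsupp.equivFunOnFinite.symm fun _ => k - 1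

/-- The coefficient formula. -/
theorem coeff_formula (hk : 0 < k) (hs : Function.Injective s) (f : MvPolynomial E F)
    (hf : f.totalDegree ≤ Fintype.card E * (k - 1)) :
    coeff (ex E k) f = ∑ c : E → Fin k, (∏ e, lam s (c e)) * eval (fun e => s (c e)) f := by
  simp_rw [eval_eq', Finset.mul_sum]
  rw [Finset.sum_comm]
  have h1 : ∀ d ∈ f.support, ∑ c : E → Fin k, (∏ e, lam s (c e)) *
      (coeff d f * ∏ i, s (c i) ^ d i) = coeff d f * if d = ex E k then 1 else 0 := by
    intro d hd
    have h2 : ∑ c : E → Fin k, (∏ e, lam s (c e)) * (coeff d f * ∏ i, s (c i) ^ d i) =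
        coeff d f * ∏ e : E, ∑ a : Fin k, lam s a * s a ^ d e := by
      rw [Finset.prod_univ_sum, Fintype.piFinset_univ, Finset.mul_sum]
      apply Finset.sum_congr rfl
      intro c _
      rw [Finset.prod_mul_distrib]
      ring
    rw [h2]
    congr 1
    by_cases hde : d = ex E k
    · rw [if_pos hde]
      apply Finset.prod_eq_one
      intro e _
      have h3 : d e = k - 1 := DFunLike.congr_fun hde e
      rw [h3, sum_lam s hs (by omega), if_pos rfl]
    · rw [if_neg hde]
      have h3 : ∃ e, d e < k - 1 := by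
        by_contra hcon
        push Not at hcon
        have h4 : d.degree ≤ Fintype.card E * (k - 1) := by
          refine le_trans ?_ hf
          exact le_totalDegree hd
        have h5 : ∃ e, k - 1 < d e := by
          by_contra hcon2
          push Not at hcon2
          apply hde
          ext e
          exact le_antisymm (hcon2 e) (hcon e)
        obtain ⟨e0, he0⟩ := h5
        have h6 : Fintype.card E * (k - 1) < d.degree := by
          rw [Finsupp.degree_eq_sum, ← Finset.card_univ, ← smul_eq_mul, ← Finset.sum_const]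
          exact Finset.sum_lt_sum (fun e _ => hcon e) ⟨e0, Finset.mem_univ _, he0⟩
        omega
      obtain ⟨e, he⟩ := h3
      apply Finset.prod_eq_zero (Finset.mem_univ e)
      rw [sum_lam s hs (by omega), if_neg (by omega)]
  rw [Finset.sum_congr rfl h1]
  simp only [mul_ite, mul_one, mul_zero]
  rw [Finset.sum_ite_eq']
  split_ifs with h
  · rfl
  · rw [mem_support_iff, not_not] at h
    exact h

end lagrange

/-! ### The line graph polynomial -/

section poly

variable {k : ℕ}

/-- The graph polynomial of the line graph of the complete graph. -/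
noncomputable def PK (k : ℕ) (R : Type) [CommRing R] : MvPolynomial (Ed (k + 1)) R :=
  ∏ v : Fin (k + 1), (Matrix.vandermonde (fun j : Fin k => (X (edj v j) :
    MvPolynomial (Ed (k + 1)) R))).det

theorem PK_map {R S : Type} [CommRing R] [CommRing S] (f : R →+* S) :
    map f (PK k R) = PK k S := by
  unfold PK
  rw [map_prod]
  apply Finset.prod_congr rfl
  intro v _
  rw [Matrix.det_vandermonde, Matrix.det_vandermonde, map_prod]
  apply Finset.prod_congr rfl
  intro i _
  rw [map_prod]
  apply Finset.prod_congr rfl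
  intro j _
  rw [map_sub, map_X, map_X]

theorem eval_PK {R : Type} [CommRing R] (φ : Ed (k + 1) → R) :
    eval φ (PK k R) = ∏ v : Fin (k + 1), (Matrix.vandermonde (fun j : Fin k => φ (edj v j))).det := by
  unfold PK
  rw [map_prod]
  apply Finset.prod_congr rfl
  intro v _
  rw [Matrix.det_vandermonde, Matrix.det_vandermonde, map_prod]
  apply Finset.prod_congr rfl
  intro i _
  rw [map_prod]
  apply Finset.prod_congr rfl
  intro j _
  rw [map_sub, eval_X, eval_X]

theorem card_Ed (k : ℕ) : (k + 1) * k = 2 * Fintype.card (Ed (k + 1)) := by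
  have h := prod_edj (k := k) (fun _ => (2 : ℕ))
  simp only [Finset.prod_const, Finset.card_univ, Fintype.card_fin] at h
  rw [← pow_mul, ← pow_add] at h
  have h2 := Nat.pow_right_injective (le_refl 2) h
  rw [mul_comm (k + 1) k, h2]
  ring

theorem totalDegree_PK {R : Type} [CommRing R] (hk : 0 < k) :
    (PK k R).totalDegree ≤ Fintype.card (Ed (k + 1)) * (k - 1) := by
  have h1 : ∀ v : Fin (k + 1), ((Matrix.vandermonde (fun j : Fin k => (X (edj v j) :
      MvPolynomial (Ed (k + 1)) R))).det).totalDegree ≤ Fintype.card (Ed k) := by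
    intro v
    rw [Matrix.det_vandermonde]
    rw [← prod_Ed (fun i j => (X (edj v j) : MvPolynomial (Ed (k + 1)) R) - X (edj v i))]
    refine (totalDegree_finsetProd _ _).trans ?_
    rw [← Finset.card_univ, Finset.card_eq_sum_ones]
    apply Finset.sum_le_sum
    intro e _
    refine (totalDegree_sub _ _).trans (max_le ?_ ?_)
    · exact (totalDegree_monomial_le _ _).trans (by simp)
    · exact (totalDegree_monomial_le _ _).trans (by simp)
  have h2 : (PK k R).totalDegree ≤ (k + 1) * Fintype.card (Ed k) := by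
    unfold PK
    refine (totalDegree_finsetProd _ _).trans ?_
    refine (Finset.sum_le_sum (fun v _ => h1 v)).trans ?_
    simp
  obtain ⟨k', rfl⟩ : ∃ k', k = k' + 1 := ⟨k - 1, by omega⟩
  refine h2.trans (le_of_eq ?_)
  have h3 := card_Ed k'
  have h4 := card_Ed (k' + 1)
  rw [Nat.add_sub_cancel]
  have h5 : 2 * ((k' + 1 + 1) * Fintype.card (Ed (k' + 1))) =
      2 * (Fintype.card (Ed (k' + 1 + 1)) * k') := by
    calc 2 * ((k' + 1 + 1) * Fintype.card (Ed (k' + 1))) =
        (k' + 1 + 1) * (2 * Fintype.card (Ed (k' + 1))) := by ring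
      _ = (k' + 1 + 1) * ((k' + 1) * k') := by rw [h3]
      _ = ((k' + 1 + 1) * (k' + 1)) * k' := by ring
      _ = (2 * Fintype.card (Ed (k' + 1 + 1))) * k' := by rw [h4]
      _ = _ := by ring
  omega

theorem vandermonde_comp {F : Type} [CommRing F] (s : Fin k → F) (f : Fin k → Fin k) :
    (Matrix.vandermonde (fun j => s (f j))).det = ((eps f : ℤ) : F) * (Matrix.vandermonde s).det := by
  have h2 := RingHom.map_det (Int.castRingHom F)
    (Matrix.of fun a j : Fin k => if a = f j then (1 : ℤ) else 0)
  have h3 : ((eps f : ℤ) : F) = Int.castRingHom F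
    ((Matrix.of fun a j : Fin k => if a = f j then (1 : ℤ) else 0)).det := rfl
  rw [h3, h2, ← Matrix.det_transpose ((Int.castRingHom F).mapMatrix _), ← Matrix.det_mul]
  congr 1
  ext j b
  rw [Matrix.mul_apply, Finset.sum_eq_single (f j)]
  · rw [Matrix.transpose_apply, RingHom.mapMatrix_apply, Matrix.map_apply, Matrix.of_apply,
      if_pos rfl, map_one, one_mul]
    rfl
  · intro a _ ha
    rw [Matrix.transpose_apply, RingHom.mapMatrix_apply, Matrix.map_apply, Matrix.of_apply,
      if_neg ha, map_zero, zero_mul]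
  · intro h
    exact absurd (Finset.mem_univ _) h

theorem coeff_PK_ne {F : Type} [Field F] (hk : 0 < k) (hk2 : Even (k + 1)) (s : Fin k → F)
    (hs : Function.Injective s)
    (h : coeff (one' (k + 1)) (pf (k + 1) (skew (fun e =>
      (X e : MvPolynomial (Ed (k + 1)) F))) ^ k) ≠ 0) :
    coeff (ex (Ed (k + 1)) k) (PK k F) ≠ 0 := by
  rw [coeff_formula s hk hs _ (totalDegree_PK hk)]
  have h1 : ∀ c : Ed (k + 1) → Fin k, (∏ e, lam s (c e)) * eval (fun e => s (c e)) (PK k F) =
      (Matrix.vandermonde s).det ^ (k + 1) * ((∏ e, lam s (c e)) *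
        ∏ v : Fin (k + 1), ((eps (fun j => c (edj v j)) : ℤ) : F)) := by
    intro c
    rw [eval_PK]
    have h2 : ∏ v : Fin (k + 1), (Matrix.vandermonde (fun j : Fin k => s (c (edj v j)))).det =
        (∏ v : Fin (k + 1), ((eps (fun j => c (edj v j)) : ℤ) : F)) *
          (Matrix.vandermonde s).det ^ (k + 1) := by
      rw [Finset.prod_congr rfl (fun v _ => vandermonde_comp s (fun j => c (edj v j))),
        Finset.prod_mul_distrib]
      simp
    rw [h2]
    ring
  simp_rw [h1]
  rw [← Finset.mul_sum]
  refine mul_ne_zero (pow_ne_zero _ ?_) (signed_count_ne k hk2 (lam s) (lam_ne s hs) h)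
  rw [Ne, Matrix.det_vandermonde_eq_zero_iff]
  rintro ⟨i, j, hij, hne⟩
  exact hne (hs hij)

end poly

/-! ### The theorem -/

section main

variable {p : ℕ} [Fact p.Prime]

theorem coeff_PK_ne_p {k : ℕ} (hp : p = k + 2) (hk : Even (k + 1)) :
    coeff (ex (Ed (k + 1)) k) (PK k (ZMod p)) ≠ 0 := by
  have hk0 : 0 < k := by
    rcases Nat.eq_zero_or_pos k with h | h
    · subst h
      exact absurd hk (by decide)
    · exact h
  have hcard : Fintype.card (Ed (k + 1)) = (p - 2) * ((k + 1) / 2) := by
    obtain ⟨m, hm⟩ := hk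
    have h1 := card_Ed k
    have h2 : (k + 1) / 2 = m := by omega
    have h3 : p - 2 = k := by omega
    rw [h2, h3]
    have h4 : (k + 1) * k = 2 * (k * m) := by rw [hm]; ring
    omega
  have h1 := pf_of_det (p := p) (cJ p (k + 1)) hcard
    (coeff_det_ne (p := p) (n := k + 1) hk hp)
  have h3 : p - 2 = k := by omega
  rw [h3] at h1
  refine coeff_PK_ne hk0 hk (fun a : Fin k => ((a : ℕ) : ZMod p)) ?_ h1
  intro a b hab
  simp only at hab
  rw [ZMod.natCast_eq_natCast_iff] at hab
  have ha := a.isLt
  have hb := b.isLt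
  exact Fin.ext (Nat.ModEq.eq_of_lt_of_lt hab (by omega) (by omega))

/-- List edge colourings of the complete graph on `k + 1 = p - 1` vertices. -/
theorem list_colour {k : ℕ} (hp : p = k + 2) (hk : Even (k + 1)) (L : Ed (k + 1) → Finset ℕ)
    (hL : ∀ e, k ≤ (L e).card) : ∃ f : Ed (k + 1) → ℕ, (∀ e, f e ∈ L e) ∧
      ∀ v : Fin (k + 1), ∀ i j : Fin k, i ≠ j → f (edj v i) ≠ f (edj v j) := by
  have hk0 : 0 < k := by
    rcases Nat.eq_zero_or_pos k with h | h
    · subst h
      exact absurd hk (by decide)
    · exact h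
  let R := Polynomial (ZMod p)
  have hinj : Function.Injective (fun n : ℕ => (Polynomial.X ^ n : R)) := by
    intro a b hab
    have h1 := congrArg Polynomial.natDegree hab
    simpa using h1
  have hc : coeff (ex (Ed (k + 1)) k) (PK k R) ≠ 0 := by
    rw [← PK_map (Polynomial.C : ZMod p →+* R), coeff_map]
    rw [Ne, Polynomial.C_eq_zero]
    exact coeff_PK_ne_p hp hk
  have hdeg : (ex (Ed (k + 1)) k).degree = Fintype.card (Ed (k + 1)) * (k - 1) := by
    rw [Finsupp.degree_eq_sum]
    change ∑ _e : Ed (k + 1), (k - 1) = _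
    simp
  have htd : (PK k R).totalDegree = (ex (Ed (k + 1)) k).degree := by
    apply le_antisymm
    · rw [hdeg]
      exact totalDegree_PK hk0
    · exact le_totalDegree (mem_support_iff.2 hc)
  classical
  obtain ⟨g, hg1, hg2⟩ := combinatorial_nullstellensatz_exists_eval_nonzero (PK k R)
    (ex (Ed (k + 1)) k) hc htd (fun e => (L e).image (fun n : ℕ => (Polynomial.X ^ n : R)))
    (by
      intro e
      rw [Finset.card_image_of_injective _ hinj]
      change k - 1 < _
      have := hL e
      omega)
  have h3 : ∀ e, ∃ n ∈ L e, (Polynomial.X ^ n : R) = g e := by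
    intro e
    exact Finset.mem_image.1 (hg1 e)
  choose f hf1 hf2 using h3
  refine ⟨f, hf1, ?_⟩
  intro v i j hij hfe
  rw [eval_PK, Finset.prod_ne_zero_iff] at hg2
  apply hg2 v (Finset.mem_univ v)
  rw [Matrix.det_vandermonde_eq_zero_iff]
  refine ⟨i, j, ?_, hij⟩
  rw [← hf2, ← hf2, hfe]

end main

end Pool.Agent.H604R2.LEC
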