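import Pool.Agent.H604R2.LEC.Gram

/-!
# The signed number of edge colourings and the Pfaffian
-/

set_option autoImplicit false

namespace Pool.Agent.H604R2.LEC

open MvPolynomial Finset Pool.Agent.Helper929

variable {k : ℕ} {R : Type*} [CommRing R]

/-- The sign of a map (zero if it is not a permutation), as a determinant. -/
def eps (f : Fin k → Fin k) : ℤ := (Matrix.of fun a j => if a = f j then (1 : ℤ) else 0).det

/-- The matrix of a colouring. -/
def Wc (R : Type*) [CommRing R] (c : Ed (k + 1) → Fin k) : Matrix (SS k) (SS k) R :=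
  Matrix.of fun s t => if s.2 = t.2 ∧ s.1 = c (edj t.2 t.1) then 1 else 0

theorem det_Wc (c : Ed (k + 1) → Fin k) :
    (Wc R c).det = ∏ v : Fin (k + 1), ((eps (fun j => c (edj v j)) : ℤ) : R) := by
  have h1 : Wc R c = Matrix.blockDiagonal (fun v : Fin (k + 1) =>
      (Matrix.of fun a j => if a = c (edj v j) then (1 : R) else 0)) := by
    ext s t
    rw [Matrix.blockDiagonal_apply]
    unfold Wc
    rw [Matrix.of_apply]
    by_cases h : s.2 = t.2
    · rw [if_pos h, Matrix.of_apply, h]
      simp
    · rw [if_neg h, if_neg (fun h2 => h h2.1)]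
  rw [h1, Matrix.det_blockDiagonal]
  apply Finset.prod_congr rfl
  intro v _
  have h2 := RingHom.map_det (Int.castRingHom R)
    (Matrix.of fun a j : Fin k => if a = c (edj v j) then (1 : ℤ) else 0)
  rw [eps]
  change _ = Int.castRingHom R _
  rw [h2]
  congr 1
  ext a j
  simp

/-- The block matrix with one skew-symmetric block for each colour. -/
def Big (x : Fin k → Ed (k + 1) → R) : Matrix (SS k) (SS k) R :=
  Matrix.of fun s t => if s.1 = t.1 then skew (x s.1) s.2 t.2 else 0

theorem Big_antisymm (x : Fin k → Ed (k + 1) → R) (s t : SS k) : Big x s t = - Big x t s := by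
  unfold Big
  rw [Matrix.of_apply, Matrix.of_apply]
  by_cases h : s.1 = t.1
  · rw [if_pos h, if_pos h.symm, skew_antisymm, h]
  · rw [if_neg h, if_neg (fun h2 => h h2.symm), neg_zero]

theorem Big_self (x : Fin k → Ed (k + 1) → R) (s : SS k) : Big x s s = 0 := by
  unfold Big
  rw [Matrix.of_apply, if_pos rfl, skew_self]

theorem Big_map {S : Type*} [CommRing S] (x : Fin k → Ed (k + 1) → R) (f : R →+* S) :
    (Big x).map f = Big (fun a e => f (x a e)) := by
  ext s t
  rw [Matrix.map_apply]
  unfold Big
  rw [Matrix.of_apply, Matrix.of_apply]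
  split_ifs
  · rw [← skew_map, Matrix.map_apply]
  · exact map_zero f

theorem det_Big (x : Fin k → Ed (k + 1) → R) : (Big x).det = ∏ a, (skew (x a)).det := by
  have h1 : Big x = (Matrix.blockDiagonal (fun a : Fin k => skew (x a))).submatrix
      (Equiv.prodComm _ _) (Equiv.prodComm _ _) := by
    ext s t
    rw [Matrix.submatrix_apply, Matrix.blockDiagonal_apply]
    unfold Big
    rw [Matrix.of_apply]
    rfl
  rw [h1, Matrix.det_submatrix_equiv_self, Matrix.det_blockDiagonal]

theorem ite_aux {α : Type*} [DecidableEq α] (a b d : α) (x : R) :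
    (if a = d then (1 : R) else 0) * x * (if b = d then 1 else 0) =
      if a = b then (if a = d then x else 0) else 0 := by
  by_cases h1 : a = d
  · subst h1
    by_cases h2 : b = a
    · subst h2
      simp
    · rw [if_neg h2, if_neg (show ¬ a = b from fun h => h2 h.symm), mul_zero]
  · rw [if_neg h1, if_neg h1, zero_mul, zero_mul, ite_self]

theorem Wc_conj (c : Ed (k + 1) → Fin k) (x : Ed (k + 1) → R) :
    Wc R c * Lam x * (Wc R c).transpose = Big (fun a e => if a = c e then x e else 0) := by
  ext s t
  obtain ⟨a, v⟩ := s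
  obtain ⟨b, w⟩ := t
  rw [Matrix.mul_apply]
  simp_rw [Matrix.mul_apply, Matrix.transpose_apply]
  have hR : Big (fun a e => if a = c e then x e else 0) (a, v) (b, w) =
      if a = b then skew (fun e => if a = c e then x e else 0) v w else 0 := rfl
  rw [hR]
  by_cases hvw : v = w
  · subst hvw
    rw [skew_self, ite_self]
    apply Finset.sum_eq_zero
    intro t _
    by_cases ht : Wc R c (b, v) t = 0
    · rw [ht, mul_zero]
    · have ht2 : v = t.2 := by
        by_contra h
        apply ht
        unfold Wc
        rw [Matrix.of_apply, if_neg (fun h2 => h h2.1)]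
      rw [Finset.sum_eq_zero, zero_mul]
      intro s _
      by_cases hs : Wc R c (a, v) s = 0
      · rw [hs, zero_mul]
      · have hs2 : v = s.2 := by
          by_contra h
          apply hs
          unfold Wc
          rw [Matrix.of_apply, if_neg (fun h2 => h h2.1)]
        have h3 : Lam x s t = 0 := by
          unfold Lam
          rw [Matrix.of_apply, if_neg]
          rintro ⟨h4, -⟩
          rw [← ht2, ← hs2] at h4
          exact Fin.succAbove_ne _ _ h4
        rw [h3, mul_zero]
  · obtain ⟨j, hj⟩ := Fin.exists_succAbove_eq (x := w) (y := v) (fun h => hvw h.symm)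
    obtain ⟨j', hj'⟩ := Fin.exists_succAbove_eq (x := v) (y := w) hvw
    have huniq : ∀ s t : SS k, s.2 = v → t.2 = w → Lam x s t ≠ 0 → s = (j, v) ∧ t = (j', w) := by
      rintro ⟨s1, s2⟩ ⟨t1, t2⟩ hs ht h
      simp only at hs ht
      subst hs ht
      have h2 : s2.succAbove s1 = t2 ∧ t2.succAbove t1 = s2 := by
        by_contra h3
        apply h
        unfold Lam
        rw [Matrix.of_apply, if_neg h3]
      constructor
      · rw [Fin.succAbove_right_injective (h2.1.trans hj.symm)]
      · rw [Fin.succAbove_right_injective (h2.2.trans hj'.symm)]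
    rw [Finset.sum_eq_single ((j', w) : SS k)]
    · rw [Finset.sum_eq_single ((j, v) : SS k)]
      · have hL : Lam x (j, v) (j', w) = skew x v w := by
          unfold Lam
          rw [Matrix.of_apply, if_pos ⟨hj, hj'⟩]
        have hW1 : Wc R c (a, v) (j, v) = if a = c (edj v j) then 1 else 0 := by
          unfold Wc
          rw [Matrix.of_apply]
          simp
        have hW2 : Wc R c (b, w) (j', w) = if b = c (edj w j') then 1 else 0 := by
          unfold Wc
          rw [Matrix.of_apply]
          simp
        rw [hL, hW1, hW2]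
        rcases lt_trichotomy v w with h | h | h
        · rw [edj_of_lt hj h, edj_of_gt hj' h, skew_lt _ h, skew_lt _ h]
          exact ite_aux _ _ _ _
        · exact absurd h hvw
        · rw [edj_of_gt hj h, edj_of_lt hj' h, skew_gt _ h, skew_gt _ h]
          refine (ite_aux _ _ _ _).trans ?_
          split_ifs <;> simp
      · intro s _ hs
        by_cases hs2 : v = s.2
        · have h3 : Lam x s (j', w) = 0 := by
            by_contra h4
            exact hs (huniq s (j', w) hs2.symm rfl h4).1
          rw [h3, mul_zero]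
        · have h3 : Wc R c (a, v) s = 0 := by
            unfold Wc
            rw [Matrix.of_apply, if_neg (fun h2 => hs2 h2.1)]
          rw [h3, zero_mul]
      · intro h
        exact absurd (Finset.mem_univ _) h
    · intro t _ ht
      by_cases ht2 : w = t.2
      · rw [Finset.sum_eq_zero, zero_mul]
        intro s _
        by_cases hs2 : v = s.2
        · have h3 : Lam x s t = 0 := by
            by_contra h4
            exact ht (huniq s t hs2.symm ht2.symm h4).2
          rw [h3, mul_zero]
        · have h3 : Wc R c (a, v) s = 0 := by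
            unfold Wc
            rw [Matrix.of_apply, if_neg (fun h2 => hs2 h2.1)]
          rw [h3, zero_mul]
      · have h3 : Wc R c (b, w) t = 0 := by
          unfold Wc
          rw [Matrix.of_apply, if_neg (fun h2 => ht2 h2.1)]
        rw [h3, mul_zero]
    · intro h
      exact absurd (Finset.mem_univ _) h

/-! ### Expanding into colourings -/

section expand

variable {E : Type*} [Fintype E]

/-- the all-one exponent -/
noncomputable def oneE (E : Type*) [Fintype E] : E →₀ ℕ := Finsupp.equivFunOnFinite.symm fun _ => 1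

theorem coeff_scaled_prod (l : Fin k → R) (ν : E × Fin k → ℕ) :
    (∏ p : E × Fin k, (C (l p.2) * X p.1 : MvPolynomial E R) ^ ν p) =
      monomial (Finsupp.equivFunOnFinite.symm fun e => ∑ a, ν (e, a)) (∏ p, l p.2 ^ ν p) := by
  simp_rw [mul_pow]
  rw [Finset.prod_mul_distrib, Fintype.prod_prod_type (fun p : E × Fin k => (X p.1 : MvPolynomial E R) ^ ν p)]
  simp_rw [Finset.prod_pow_eq_pow_sum]
  rw [monomial_eq, Finsupp.prod_fintype _ _ (fun i => pow_zero _), map_prod]
  simp

theorem expand_colourings [DecidableEq E] (l : Fin k → R) (g : MvPolynomial (E × Fin k) R) :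
    coeff (oneE E) (aeval (fun p : E × Fin k => (C (l p.2) * X p.1 : MvPolynomial E R)) g) =
      ∑ c : E → Fin k, coeff (oneE E) (aeval (fun p : E × Fin k =>
        (if p.2 = c p.1 then C (l p.2) * X p.1 else 0 : MvPolynomial E R)) g) := by
  induction g using MvPolynomial.induction_on' with
  | add g h hg hh =>
    simp only [map_add, coeff_add, hg, hh, Finset.sum_add_distrib]
  | monomial ν r =>
    simp only [aeval_monomial, algebraMap_eq, coeff_C_mul]
    rw [← Finset.mul_sum]
    congr 1
    rw [Finsupp.prod_fintype _ _ (fun i => pow_zero _)]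
    have h0 : ∀ c : E → Fin k, (ν.prod fun i e => (if i.2 = c i.1 then
        (C (l i.2) * X i.1 : MvPolynomial E R) else 0) ^ e) =
        if ∀ p : E × Fin k, p.2 ≠ c p.1 → ν p = 0 then
          ∏ p : E × Fin k, (C (l p.2) * X p.1 : MvPolynomial E R) ^ ν p else 0 := by
      intro c
      rw [Finsupp.prod_fintype _ _ (fun i => pow_zero _)]
      split_ifs with h
      · apply Finset.prod_congr rfl
        intro p _
        by_cases hp : p.2 = c p.1
        · rw [if_pos hp]
        · rw [if_neg hp, h p hp, pow_zero, pow_zero]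
      · push Not at h
        obtain ⟨p, hp, hν⟩ := h
        apply Finset.prod_eq_zero (Finset.mem_univ p)
        rw [if_neg hp, zero_pow hν]
    simp_rw [h0]
    rw [coeff_scaled_prod l ν, coeff_monomial]
    by_cases hS : (Finsupp.equivFunOnFinite.symm fun e => ∑ a, ν (e, a)) = oneE E
    · rw [if_pos hS]
      have h1 : ∀ e, ∑ a, ν (e, a) = 1 := fun e => DFunLike.congr_fun hS e
      have h2 : ∀ e, ∃ a, ν (e, a) ≠ 0 := by
        intro e
        by_contra hcon
        push Not at hcon
        have := h1 e
        rw [Finset.sum_eq_zero (fun a _ => hcon a)] at this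
        omega
      choose c0 hc0 using h2
      have h3 : ∀ e a, a ≠ c0 e → ν (e, a) = 0 := by
        intro e a ha
        have h4 := h1 e
        rw [← Finset.add_sum_erase _ _ (Finset.mem_univ (c0 e))] at h4
        have h5 : ν (e, a) ≤ ∑ x ∈ univ.erase (c0 e), ν (e, x) :=
          Finset.single_le_sum (f := fun x => ν (e, x)) (fun _ _ => Nat.zero_le _)
            (Finset.mem_erase.2 ⟨ha, Finset.mem_univ a⟩)
        have h6 := hc0 e
        omega
      rw [Finset.sum_eq_single c0]
      · rw [if_pos (show ∀ p : E × Fin k, p.2 ≠ c0 p.1 → ν p = 0 from fun p hp => h3 p.1 p.2 hp),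
          coeff_monomial, if_pos hS]
      · intro c _ hc
        rw [if_neg, coeff_zero]
        intro h
        apply hc
        funext e
        by_contra hne
        exact hc0 e (h (e, c0 e) (fun h7 => hne h7.symm))
      · intro h
        exact absurd (Finset.mem_univ _) h
    · rw [if_neg hS]
      symm
      apply Finset.sum_eq_zero
      intro c _
      split_ifs
      · rw [coeff_monomial, if_neg hS]
      · exact coeff_zero _

end expand

/-- The multilinear coefficient of the weighted big Pfaffian. -/
theorem coeff_pfS_Big (k : ℕ) : ∃ ε : ℤ, (ε = 1 ∨ ε = -1) ∧ ∀ (R : Type) [CommRing R]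
    (l : Fin k → R),
    coeff (one' (k + 1)) (pfS (Big (fun a e => (C (l a) * X e : MvPolynomial (Ed (k + 1)) R)))) =
      (ε : R) * ∑ c : Ed (k + 1) → Fin k, (∏ e, l (c e)) *
        ∏ v : Fin (k + 1), ((eps (fun j => c (edj v j)) : ℤ) : R) := by
  obtain ⟨ε, hε, hpf⟩ := pfS_Lam_gen k
  refine ⟨ε, hε, ?_⟩
  intro R _ l
  have hL : ∀ x : Ed (k + 1) → MvPolynomial (Ed (k + 1)) R, pfS (Lam x) =
      (ε : MvPolynomial (Ed (k + 1)) R) * ∏ e, x e := by
    intro x
    have h1 := congrArg (aeval x : MvPolynomial (Ed (k + 1)) ℤ →ₐ[ℤ] _).toRingHom hpf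
    rw [pfS_map, Lam_map, map_mul, map_prod] at h1
    have h2 : ∀ e, (aeval x : MvPolynomial (Ed (k + 1)) ℤ →ₐ[ℤ] _).toRingHom (X e) = x e := by
      intro e
      simp
    simp_rw [h2] at h1
    rw [h1]
    congr 1
    simp
  have h1 : pfS (Big (fun a e => (C (l a) * X e : MvPolynomial (Ed (k + 1)) R))) =
      aeval (fun p : Ed (k + 1) × Fin k => (C (l p.2) * X p.1 : MvPolynomial (Ed (k + 1)) R))
        (pfS (Big (fun a e => (X (e, a) : MvPolynomial (Ed (k + 1) × Fin k) R)))) := by
    have h2 := pfS_map (Big (fun a e => (X (e, a) : MvPolynomial (Ed (k + 1) × Fin k) R)))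
      (aeval (fun p : Ed (k + 1) × Fin k => (C (l p.2) * X p.1 :
        MvPolynomial (Ed (k + 1)) R))).toRingHom
    rw [Big_map] at h2
    refine Eq.trans ?_ h2.symm
    congr 2
    funext a e
    simp
  have h3 : one' (k + 1) = oneE (Ed (k + 1)) := rfl
  rw [h1, h3, expand_colourings, Finset.mul_sum]
  apply Finset.sum_congr rfl
  intro c _
  have h4 : aeval (fun p : Ed (k + 1) × Fin k => (if p.2 = c p.1 then C (l p.2) * X p.1 else 0 :
        MvPolynomial (Ed (k + 1)) R))
        (pfS (Big (fun a e => (X (e, a) : MvPolynomial (Ed (k + 1) × Fin k) R)))) =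
      pfS (Big (fun a e => if a = c e then (C (l (c e)) * X e : MvPolynomial (Ed (k + 1)) R)
        else 0)) := by
    have h2 := pfS_map (Big (fun a e => (X (e, a) : MvPolynomial (Ed (k + 1) × Fin k) R)))
      (aeval (fun p : Ed (k + 1) × Fin k => (if p.2 = c p.1 then C (l p.2) * X p.1 else 0 :
        MvPolynomial (Ed (k + 1)) R))).toRingHom
    rw [Big_map] at h2
    refine Eq.trans h2 ?_
    congr 2
    funext a e
    simp only [AlgHom.toRingHom_eq_coe, RingHom.coe_coe, aeval_X]
    by_cases h : a = c e
    · rw [if_pos h, if_pos h, h]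
    · rw [if_neg h, if_neg h]
  rw [h4, ← Wc_conj, pfS_gram _ (Lam_antisymm _) (Lam_self _), det_Wc, hL]
  have h5 : (∏ v : Fin (k + 1), (((eps (fun j => c (edj v j)) : ℤ)) : MvPolynomial (Ed (k + 1)) R)) *
      ((ε : MvPolynomial (Ed (k + 1)) R) * ∏ e, (C (l (c e)) * X e)) =
      monomial (oneE (Ed (k + 1))) ((ε : R) * ((∏ e, l (c e)) *
        ∏ v : Fin (k + 1), ((eps (fun j => c (edj v j)) : ℤ) : R))) := by
    rw [monomial_eq, Finsupp.prod_fintype _ _ (fun i => pow_zero _), Finset.prod_mul_distrib]
    have h6 : ∏ i : Ed (k + 1), (X i : MvPolynomial (Ed (k + 1)) R) ^ (oneE (Ed (k + 1)) i) =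
        ∏ i, X i := by
      apply Finset.prod_congr rfl
      intro i _
      exact pow_one _
    rw [h6, ← map_prod C, C_mul, C_mul, map_prod C]
    simp only [map_intCast, map_prod]
    ring
  rw [h5, coeff_monomial, if_pos rfl]

/-- If the multilinear coefficient of `Pf (X) ^ k` is not zero then the weighted signed number of
colourings is not zero. -/
theorem signed_count_ne {F : Type} [Field F] (k : ℕ) (hk : Even (k + 1)) (l : Fin k → F)
    (hl : ∀ a, l a ≠ 0)
    (h : coeff (one' (k + 1)) (pf (k + 1) (skew (fun e =>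
      (X e : MvPolynomial (Ed (k + 1)) F))) ^ k) ≠ 0) :
    ∑ c : Ed (k + 1) → Fin k, (∏ e, l (c e)) *
      ∏ v : Fin (k + 1), ((eps (fun j => c (edj v j)) : ℤ) : F) ≠ 0 := by
  obtain ⟨ε, hε, hcf⟩ := coeff_pfS_Big k
  have h1 := hcf F l
  intro h0
  rw [h0, mul_zero] at h1
  obtain ⟨m, hm⟩ := hk
  set Q := pfS (Big (fun a e => (C (l a) * X e : MvPolynomial (Ed (k + 1)) F))) with hQ
  set q := pf (k + 1) (skew (fun e => (X e : MvPolynomial (Ed (k + 1)) F))) with hq
  have h2 : Q ^ 2 = (C (∏ a, l a) ^ m * q ^ k) ^ 2 := by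
    rw [hQ, pfS_sq _ (Big_antisymm _) (Big_self _), det_Big]
    have h3 : ∀ a : Fin k, (skew (fun e => (C (l a) * X e : MvPolynomial (Ed (k + 1)) F))).det =
        C (l a) ^ (k + 1) * q ^ 2 := by
      intro a
      have h4 : skew (fun e => (C (l a) * X e : MvPolynomial (Ed (k + 1)) F)) =
          (C (l a) : MvPolynomial (Ed (k + 1)) F) •
            skew (fun e => (X e : MvPolynomial (Ed (k + 1)) F)) := by
        ext i j : 2
        rw [Matrix.smul_apply, smul_eq_mul]
        rcases lt_trichotomy i j with h | h | h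
        · rw [skew_lt _ h, skew_lt _ h]
        · subst h
          rw [skew_self, skew_self, mul_zero]
        · rw [skew_gt _ h, skew_gt _ h, mul_neg]
      rw [h4, Matrix.det_smul, Fintype.card_fin, hq, pf_sq_ring]
    simp_rw [h3]
    have h5 : (C (∏ a, l a) : MvPolynomial (Ed (k + 1)) F) ^ (k + 1) =
        C (∏ a, l a) ^ (m + m) := congrArg _ hm
    rw [Finset.prod_mul_distrib, Finset.prod_const, Finset.card_univ, Fintype.card_fin,
      Finset.prod_pow, ← map_prod C, h5]
    ring
  have h3 : (Q - C (∏ a, l a) ^ m * q ^ k) * (Q + C (∏ a, l a) ^ m * q ^ k) = 0 := by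
    linear_combination h2
  have h5 : coeff (one' (k + 1)) (C (∏ a, l a) ^ m * q ^ k) ≠ 0 := by
    rw [← C_pow, coeff_C_mul]
    exact mul_ne_zero (pow_ne_zero _ (Finset.prod_ne_zero_iff.2 fun a _ => hl a)) h
  rcases mul_eq_zero.1 h3 with h4 | h4
  · have h6 : Q = C (∏ a, l a) ^ m * q ^ k := by linear_combination h4
    rw [← h6] at h5
    exact h5 h1
  · have h6 : C (∏ a, l a) ^ m * q ^ k = - Q := by linear_combination h4
    rw [h6, coeff_neg, h1, neg_zero] at h5
    exact h5 rfl

end Pool.Agent.H604R2.LEC
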