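import Pool.Agent.H604R2.LEC.Pf

/-!
# The multilinear coefficient of a product of powers of linear forms
-/

set_option autoImplicit false

namespace Pool.Agent.H604R2.LEC

open MvPolynomial Finset

theorem derivation_prod {A ι : Type*} [CommRing A] [Algebra ℤ A] [DecidableEq ι]
    (D : Derivation ℤ A A) (s : Finset ι) (f : ι → A) :
    D (∏ i ∈ s, f i) = ∑ i ∈ s, (∏ j ∈ s.erase i, f j) * D (f i) := by
  induction s using Finset.induction_on with
  | empty => simp
  | insert a s ha ih =>
    rw [Finset.prod_insert ha, D.leibniz, smul_eq_mul, smul_eq_mul, ih, Finset.sum_insert ha,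
      Finset.erase_insert ha, Finset.mul_sum, add_comm]
    congr 1
    apply Finset.sum_congr rfl
    intro i hi
    have hia : i ≠ a := by
      rintro rfl
      exact ha hi
    rw [Finset.erase_insert_of_ne (Ne.symm hia), Finset.prod_insert
      (fun h => ha (Finset.mem_of_mem_erase h))]
    ring

variable {R : Type*} [CommRing R] {n : ℕ} (N : ℕ) (c y : Fin n → R)

/-- The linear forms. -/
noncomputable def Rw (i : Fin n) : MvPolynomial (Ed n) R :=
  C (c i) + ∑ j, skew (fun e => X e) i j * C (y j)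

theorem pderiv_skew (e : Ed n) (i j : Fin n) :
    pderiv e (skew (fun e => (X e : MvPolynomial (Ed n) R)) i j) =
      (if i = e.1.1 ∧ j = e.1.2 then 1 else 0) - (if i = e.1.2 ∧ j = e.1.1 then 1 else 0) := by
  classical
  obtain ⟨⟨u, v⟩, huv⟩ := e
  simp only at huv ⊢
  rcases lt_trichotomy i j with h | h | h
  · rw [skew_lt _ h, pderiv_X, Pi.single_apply]
    have h2 : ¬ (i = v ∧ j = u) := by
      rintro ⟨rfl, rfl⟩
      exact absurd h (not_lt.2 huv.le)
    rw [if_neg h2, sub_zero]
    congr 1
    rw [Subtype.mk.injEq, Prod.mk.injEq]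
  · subst h
    rw [skew_self, map_zero]
    have h1 : ¬ (i = u ∧ i = v) := by
      rintro ⟨rfl, rfl⟩
      exact lt_irrefl _ huv
    have h2 : ¬ (i = v ∧ i = u) := by
      rintro ⟨rfl, rfl⟩
      exact lt_irrefl _ huv
    rw [if_neg h1, if_neg h2, sub_zero]
  · rw [skew_gt _ h, map_neg, pderiv_X, Pi.single_apply]
    have h2 : ¬ (i = u ∧ j = v) := by
      rintro ⟨rfl, rfl⟩
      exact absurd h (not_lt.2 huv.le)
    rw [if_neg h2, zero_sub]
    congr 1
    have h3 : ((⟨(j, i), h⟩ : Ed n) = ⟨(u, v), huv⟩) ↔ (i = v ∧ j = u) := by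
      rw [Subtype.mk.injEq, Prod.mk.injEq]
      tauto
    simp only [h3]

theorem pderiv_Rw (e : Ed n) (i : Fin n) : pderiv e (Rw c y i) =
    (if i = e.1.1 then C (y e.1.2) else 0) - (if i = e.1.2 then C (y e.1.1) else 0) := by
  classical
  rw [Rw, map_add, pderiv_C, zero_add, map_sum]
  have h : ∀ j, pderiv e (skew (fun e => (X e : MvPolynomial (Ed n) R)) i j * C (y j)) =
      (if i = e.1.1 then (if j = e.1.2 then C (y j) else 0) else 0) -
        (if i = e.1.2 then (if j = e.1.1 then C (y j) else 0) else 0) := by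
    intro j
    rw [mul_comm, pderiv_C_mul, pderiv_skew, mul_sub, mul_ite, mul_ite, mul_one, mul_zero,
      ite_and, ite_and]
  simp_rw [h]
  rw [Finset.sum_sub_distrib]
  by_cases h1 : i = e.1.1 <;> by_cases h2 : i = e.1.2 <;> simp [h1, h2]

/-- factor of the image of a monomial -/
noncomputable def tf (i : Fin n) (a : ℕ) : MvPolynomial (Ed n) R :=
  C ((N.descFactorial a : ℕ) : R) * Rw c y i ^ (N - a)

theorem pderiv_tf (e : Ed n) (i : Fin n) (a : ℕ) :
    pderiv e (tf N c y i a) = tf N c y i (a + 1) * pderiv e (Rw c y i) := by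
  rw [tf, tf, pderiv_C_mul, pderiv_pow, Nat.descFactorial_succ, Nat.cast_mul, C_mul,
    show N - (a + 1) = N - a - 1 by omega]
  have : (((N - a : ℕ) : MvPolynomial (Ed n) R)) = C ((N - a : ℕ) : R) := by simp
  rw [this]
  ring

/-- image of a monomial -/
noncomputable def Tm (a : Fin n →₀ ℕ) : MvPolynomial (Ed n) R := ∏ i, tf N c y i (a i)

/-- The linear map sending the monomial `z ^ a` to `∏ (N)_{a i} R_i ^ (N - a i)`. -/
noncomputable def Th : MvPolynomial (Fin n) R →ₗ[R] MvPolynomial (Ed n) R :=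
  (basisMonomials (Fin n) R).constr R (Tm N c y)

theorem Th_monomial (a : Fin n →₀ ℕ) (r : R) : Th N c y (monomial a r) = r • Tm N c y a := by
  have h1 : (monomial a r : MvPolynomial (Fin n) R) = r • basisMonomials (Fin n) R a := by
    rw [coe_basisMonomials, smul_monomial, smul_eq_mul, mul_one]
  rw [h1, map_smul, Th, Module.Basis.constr_basis]

theorem pderiv_Tm (e : Ed n) (a : Fin n →₀ ℕ) : pderiv e (Tm N c y a) =
    C (y e.1.2) * Tm N c y (a + Finsupp.single e.1.1 1) -
      C (y e.1.1) * Tm N c y (a + Finsupp.single e.1.2 1) := by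
  classical
  have hD := derivation_prod ((pderiv e : Derivation R (MvPolynomial (Ed n) R) _).restrictScalars ℤ)
    univ (fun i => tf N c y i (a i))
  have hD' : pderiv e (Tm N c y a) = ∑ i, (∏ j ∈ univ.erase i, tf N c y j (a j)) *
      pderiv e (tf N c y i (a i)) := hD
  rw [hD']
  have h1 : ∀ u : Fin n, Tm N c y (a + Finsupp.single u 1) =
      (∏ j ∈ univ.erase u, tf N c y j (a j)) * tf N c y u (a u + 1) := by
    intro u
    rw [Tm, ← Finset.prod_erase_mul _ _ (Finset.mem_univ u)]
    congr 1
    · apply Finset.prod_congr rfl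
      intro j hj
      rw [Finsupp.add_apply, Finsupp.single_apply, if_neg (Finset.ne_of_mem_erase hj).symm,
        add_zero]
    · rw [Finsupp.add_apply, Finsupp.single_apply, if_pos rfl]
  have h2 : ∀ i, (∏ j ∈ univ.erase i, tf N c y j (a j)) * pderiv e (tf N c y i (a i)) =
      (if i = e.1.1 then C (y e.1.2) * Tm N c y (a + Finsupp.single i 1) else 0) -
      (if i = e.1.2 then C (y e.1.1) * Tm N c y (a + Finsupp.single i 1) else 0) := by
    intro i
    rw [pderiv_tf, pderiv_Rw, h1]
    split_ifs <;> ring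
  simp_rw [h2]
  rw [Finset.sum_sub_distrib, Finset.sum_ite_eq' , Finset.sum_ite_eq', if_pos (Finset.mem_univ _),
    if_pos (Finset.mem_univ _)]

/-- The factor of an edge. -/
noncomputable def el (e : Ed n) : MvPolynomial (Fin n) R :=
  C (y e.1.2) * X e.1.1 - C (y e.1.1) * X e.1.2

theorem pderiv_Th (e : Ed n) (g : MvPolynomial (Fin n) R) :
    pderiv e (Th N c y g) = Th N c y (el y e * g) := by
  induction g using MvPolynomial.induction_on' with
  | add g h hg hh => rw [map_add, map_add, hg, hh, mul_add, map_add]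
  | monomial a r =>
    rw [Th_monomial, Derivation.map_smul, pderiv_Tm]
    have h1 : el y e * monomial a r = monomial (a + Finsupp.single e.1.1 1) (r * y e.1.2) -
        monomial (a + Finsupp.single e.1.2 1) (r * y e.1.1) := by
      rw [el, sub_mul]
      congr 1
      · rw [X, C_mul_monomial, monomial_mul, add_comm a]
        congr 1
        ring
      · rw [X, C_mul_monomial, monomial_mul, add_comm a]
        congr 1
        ring
    rw [h1, map_sub, Th_monomial, Th_monomial, smul_sub, C_mul', C_mul', smul_smul, smul_smul]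

/-- The indicator of a set of variables. -/
noncomputable def ind (s : Finset (Ed n)) : Ed n →₀ ℕ :=
  Finsupp.equivFunOnFinite.symm fun e => if e ∈ s then 1 else 0

theorem coeff_ind_insert {s : Finset (Ed n)} {e : Ed n} (he : e ∉ s) (f : MvPolynomial (Ed n) R) :
    coeff (ind (insert e s)) f = coeff (ind s) (pderiv e f) := by
  classical
  rw [coeff_pderiv]
  have h1 : ind (insert e s) = ind s + Finsupp.single e 1 := by
    ext e'
    rw [Finsupp.add_apply]
    change (if e' ∈ insert e s then 1 else 0) = (if e' ∈ s then 1 else 0) + _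
    rw [Finsupp.single_apply]
    by_cases h : e = e'
    · subst h
      simp [he]
    · have h' : ¬ e' = e := fun h2 => h h2.symm
      simp [h, h']
  have h2 : ind s e = 0 := by
    change (if e ∈ s then 1 else 0) = 0
    rw [if_neg he]
  rw [h1, h2]
  simp

theorem coeff_ind_Th (s : Finset (Ed n)) : ∀ g : MvPolynomial (Fin n) R,
    coeff (ind s) (Th N c y g) = coeff 0 (Th N c y ((∏ e ∈ s, el y e) * g)) := by
  classical
  induction s using Finset.induction_on with
  | empty =>
    intro g
    rw [Finset.prod_empty, one_mul]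
    congr 1
    ext e
    change (if e ∈ (∅ : Finset (Ed n)) then 1 else 0) = 0
    rw [if_neg (Finset.notMem_empty e)]
  | insert e s he ih =>
    intro g
    rw [coeff_ind_insert he, pderiv_Th, ih, Finset.prod_insert he, ← mul_assoc,
      mul_comm (∏ e ∈ s, el y e) (el y e)]

theorem Th_one : Th N c y 1 = ∏ i, Rw c y i ^ N := by
  have h : (1 : MvPolynomial (Fin n) R) = monomial 0 1 := rfl
  rw [h, Th_monomial, one_smul, Tm]
  simp [tf]

theorem coeff_zero_Tm (a : Fin n →₀ ℕ) : coeff 0 (Tm N c y a) =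
    ∏ i, (((N.descFactorial (a i) : ℕ) : R) * c i ^ (N - a i)) := by
  rw [← constantCoeff_eq, Tm, map_prod]
  apply Finset.prod_congr rfl
  intro i _
  rw [tf, map_mul, map_pow, constantCoeff_C]
  congr 2
  rw [Rw, map_add, constantCoeff_C, map_sum, Finset.sum_eq_zero, add_zero]
  intro j _
  rw [map_mul]
  have : constantCoeff (skew (fun e => (X e : MvPolynomial (Ed n) R)) i j) = 0 := by
    rcases lt_trichotomy i j with h | h | h
    · rw [skew_lt _ h, constantCoeff_X]
    · subst h
      rw [skew_self, map_zero]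
    · rw [skew_gt _ h, map_neg, constantCoeff_X, neg_zero]
  rw [this, zero_mul]

/-- The product over edges, as an iterated product. -/
theorem prod_Ed {M : Type*} [CommMonoid M] (f : Fin n → Fin n → M) :
    ∏ e : Ed n, f e.1.1 e.1.2 = ∏ i : Fin n, ∏ j ∈ Finset.Ioi i, f i j := by
  classical
  have h1 : ∏ e : Ed n, f e.1.1 e.1.2 = ∏ e ∈ univ.filter (fun e : Fin n × Fin n => e.1 < e.2),
      f e.1 e.2 := by
    exact (Finset.prod_subtype (univ.filter (fun e : Fin n × Fin n => e.1 < e.2))
      (p := fun e : Fin n × Fin n => e.1 < e.2) (by intro x; simp) (fun e => f e.1 e.2)).symm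
  rw [h1, Finset.prod_filter, Fintype.prod_prod_type]
  apply Finset.prod_congr rfl
  intro i _
  rw [← Finset.prod_filter]
  apply Finset.prod_congr
  · ext j
    simp
  · intro _ _
    rfl

theorem prod_el : ∏ e : Ed n, el y e = (-1) ^ (Fintype.card (Ed n)) *
    (Matrix.projVandermonde (fun i => (X i : MvPolynomial (Fin n) R)) (fun i => C (y i))).det := by
  rw [Matrix.det_projVandermonde, ← prod_Ed (fun i j => (X j : MvPolynomial (Fin n) R) * C (y i) -
    X i * C (y j))]
  rw [← Finset.card_univ, ← Finset.prod_const, ← Finset.prod_mul_distrib]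
  apply Finset.prod_congr rfl
  intro e _
  rw [el]
  ring

/-- The multilinear coefficient of a product of powers of linear forms. -/
theorem coeff_one_prod : coeff (one' n) (∏ i, Rw c y i ^ N) = (-1) ^ (Fintype.card (Ed n)) *
    ∑ σ : Equiv.Perm (Fin n), ((Equiv.Perm.sign σ : ℤ) : R) *
      ∏ i : Fin n, (((N.descFactorial (i : ℕ) : ℕ) : R) * y (σ i) ^ (i.rev : ℕ) *
        c (σ i) ^ (N - (i : ℕ))) := by
  classical
  have h1 : one' n = ind (univ : Finset (Ed n)) := by
    ext e
    change 1 = if e ∈ univ then 1 else 0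
    simp
  rw [← Th_one, h1, coeff_ind_Th, mul_one, prod_el, Matrix.det_apply']
  have h2 : ((-1 : MvPolynomial (Fin n) R) ^ (Fintype.card (Ed n))) =
      C ((-1 : R) ^ (Fintype.card (Ed n))) := by simp
  rw [h2, C_mul', map_smul, coeff_smul, smul_eq_mul, map_sum, coeff_sum]
  congr 1
  apply Finset.sum_congr rfl
  intro σ _
  have h3 : (((Equiv.Perm.sign σ : ℤ) : MvPolynomial (Fin n) R) * ∏ i, Matrix.projVandermonde
      (fun i => (X i : MvPolynomial (Fin n) R)) (fun i => C (y i)) (σ i) i) =
      monomial (Finsupp.equivFunOnFinite.symm fun i => ((σ.symm i : Fin n) : ℕ))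
        (((Equiv.Perm.sign σ : ℤ) : R) * ∏ i : Fin n, y (σ i) ^ (i.rev : ℕ)) := by
    have h4 : ∀ i, Matrix.projVandermonde
      (fun i => (X i : MvPolynomial (Fin n) R)) (fun i => C (y i)) (σ i) i =
        X (σ i) ^ (i : ℕ) * C (y (σ i) ^ (i.rev : ℕ)) := by
      intro i
      rw [Matrix.projVandermonde_apply, C_pow]
    simp_rw [h4]
    rw [Finset.prod_mul_distrib, ← map_prod C, monomial_eq, C_mul]
    have h5 : ((Finsupp.equivFunOnFinite.symm fun i => ((σ.symm i : Fin n) : ℕ)) : Fin n →₀ ℕ).prod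
        (fun i e => (X i : MvPolynomial (Fin n) R) ^ e) = ∏ i, X (σ i) ^ (i : ℕ) := by
      rw [Finsupp.prod_fintype _ _ (fun i => pow_zero _)]
      rw [← Equiv.prod_comp σ]
      apply Finset.prod_congr rfl
      intro i _
      simp
    rw [h5]
    have h6 : (((Equiv.Perm.sign σ : ℤ) : MvPolynomial (Fin n) R)) =
      C ((Equiv.Perm.sign σ : ℤ) : R) := by simp
    rw [h6]
    ring
  rw [h3, Th_monomial, coeff_smul, coeff_zero_Tm, smul_eq_mul, mul_assoc]
  congr 1
  rw [← Equiv.prod_comp σ (fun i => (((N.descFactorial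
    (((Finsupp.equivFunOnFinite.symm fun i => ((σ.symm i : Fin n) : ℕ)) : Fin n →₀ ℕ) i) : ℕ) : R) *
    c i ^ (N - ((Finsupp.equivFunOnFinite.symm fun i => ((σ.symm i : Fin n) : ℕ)) : Fin n →₀ ℕ) i)))]
  rw [← Finset.prod_mul_distrib]
  apply Finset.prod_congr rfl
  intro i _
  simp
  ring

end Pool.Agent.H604R2.LEC
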