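import Pool.Agent.H604R2.LEC.Pf

/-!
# Pfaffians of matrices indexed by `Fin k × Fin (k + 1)`
-/

set_option autoImplicit false

namespace Pool.Agent.H604R2.LEC

open MvPolynomial Finset Pool.Agent.Helper929

/-- Congruence and the Pfaffian, over an arbitrary commutative ring. -/
theorem pf_gram_ring {R : Type*} [CommRing R] {N : ℕ} (x : Ed N → R)
    (P : Matrix (Fin N) (Fin N) R) : pf N (P * skew x * P.transpose) = P.det * pf N (skew x) := by
  let U := MvPolynomial ((Fin N × Fin N) ⊕ Ed N) ℤ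
  let K := FractionRing U
  let xU : Ed N → U := fun e => X (Sum.inr e)
  let PU : Matrix (Fin N) (Fin N) U := Matrix.of fun i j => X (Sum.inl (i, j))
  have hinj : Function.Injective (algebraMap U K) := IsFractionRing.injective _ _
  have : CharZero K := charZero_of_injective_algebraMap hinj
  have key : pf N (PU * skew xU * PU.transpose) = PU.det * pf N (skew xU) := by
    apply hinj
    rw [map_mul, pf_map, pf_map, RingHom.map_det]
    have h1 := pf_gram ((skew xU).map (algebraMap U K)) (by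
      rw [skew_map]
      exact skew_antisymm _) ((algebraMap U K).mapMatrix PU)
    rw [← h1]
    congr 1
    rw [Matrix.map_mul, Matrix.map_mul, Matrix.transpose_map]
    rfl
  let f : U →+* R := (aeval (Sum.elim (fun q : Fin N × Fin N => P q.1 q.2) x) : U →ₐ[ℤ] R).toRingHom
  have hx : (skew xU).map f = skew x := by
    rw [skew_map]
    congr 1
    funext e
    change aeval _ (X (Sum.inr e)) = _
    rw [aeval_X]
    rfl
  have hP : PU.map f = P := by
    ext i j
    rw [Matrix.map_apply]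
    change aeval _ (X (Sum.inl (i, j))) = _
    rw [aeval_X]
    rfl
  have h2 := congrArg f key
  rw [map_mul, pf_map, pf_map, RingHom.map_det, RingHom.mapMatrix_apply, Matrix.map_mul,
    Matrix.map_mul, Matrix.transpose_map, hx, hP] at h2
  exact h2

/-- The index type. -/
abbrev SS (k : ℕ) : Type := Fin k × Fin (k + 1)

/-- Pfaffian of a matrix indexed by `SS k`. -/
def pfS {R : Type*} [CommRing R] {k : ℕ} (M : Matrix (SS k) (SS k) R) : R :=
  pf (k * (k + 1)) (M.submatrix finProdFinEquiv.symm finProdFinEquiv.symm)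

section pfS

variable {R S : Type*} [CommRing R] [CommRing S] {k : ℕ}

theorem pfS_sq (M : Matrix (SS k) (SS k) R) (hM : ∀ i j, M i j = - M j i) (h0 : ∀ i, M i i = 0) :
    pfS M ^ 2 = M.det := by
  rw [pfS, eq_skew (M.submatrix finProdFinEquiv.symm finProdFinEquiv.symm)
    (fun i j => hM _ _) (fun i => h0 _), pf_sq_ring, ← eq_skew (M.submatrix finProdFinEquiv.symm
    finProdFinEquiv.symm) (fun i j => hM _ _) (fun i => h0 _), Matrix.det_submatrix_equiv_self]

theorem pfS_map (M : Matrix (SS k) (SS k) R) (f : R →+* S) : f (pfS M) = pfS (M.map f) := by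
  rw [pfS, pf_map]
  rfl

theorem pfS_gram (M : Matrix (SS k) (SS k) R) (hM : ∀ i j, M i j = - M j i)
    (h0 : ∀ i, M i i = 0) (W : Matrix (SS k) (SS k) R) :
    pfS (W * M * W.transpose) = W.det * pfS M := by
  have h1 : (W * M * W.transpose).submatrix finProdFinEquiv.symm finProdFinEquiv.symm =
      (W.submatrix finProdFinEquiv.symm finProdFinEquiv.symm) *
      (M.submatrix finProdFinEquiv.symm finProdFinEquiv.symm) *
      (W.submatrix finProdFinEquiv.symm finProdFinEquiv.symm).transpose := by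
    rw [Matrix.transpose_submatrix, Matrix.submatrix_mul_equiv, Matrix.submatrix_mul_equiv]
  have h2 := eq_skew (M.submatrix finProdFinEquiv.symm finProdFinEquiv.symm)
    (fun i j => hM _ _) (fun i => h0 _)
  rw [pfS, h1, h2, pf_gram_ring, ← h2, Matrix.det_submatrix_equiv_self]
  rfl

end pfS

/-! ### The edges at a vertex -/

variable {k : ℕ}

/-- The `j`-th edge at the vertex `v`. -/
def edj (v : Fin (k + 1)) (j : Fin k) : Ed (k + 1) :=
  if h : v < v.succAbove j then ⟨(v, v.succAbove j), h⟩ else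
    ⟨(v.succAbove j, v), lt_of_le_of_ne (not_lt.1 h) (Fin.succAbove_ne v j)⟩

theorem edj_of_lt {v : Fin (k + 1)} {j : Fin k} {w : Fin (k + 1)} (hw : v.succAbove j = w)
    (h : v < w) : edj v j = ⟨(v, w), h⟩ := by
  subst hw
  rw [edj, dif_pos h]

theorem edj_of_gt {v : Fin (k + 1)} {j : Fin k} {w : Fin (k + 1)} (hw : v.succAbove j = w)
    (h : w < v) : edj v j = ⟨(w, v), h⟩ := by
  subst hw
  rw [edj, dif_neg (not_lt.2 h.le)]

theorem prod_dite_Ed {M : Type*} [CommMonoid M] {n : ℕ} (f : Ed n → M) :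
    ∏ v : Fin n, ∏ w : Fin n, (if h : v < w then f ⟨(v, w), h⟩ else 1) = ∏ e : Ed n, f e := by
  rw [← Fintype.prod_prod_type' (fun v w => (if h : v < w then f ⟨(v, w), h⟩ else 1))]
  rw [← Fintype.prod_subtype_mul_prod_subtype (fun x : Fin n × Fin n => x.1 < x.2)]
  have h1 : ∏ i : {x : Fin n × Fin n // x.1 < x.2}, (if h : i.1.1 < i.1.2 then
      f ⟨(i.1.1, i.1.2), h⟩ else 1) = ∏ e : Ed n, f e := by
    apply Finset.prod_congr rfl
    intro e _
    rw [dif_pos e.2]
  have h2 : ∏ i : {x : Fin n × Fin n // ¬ x.1 < x.2}, (if h : i.1.1 < i.1.2 then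
      f ⟨(i.1.1, i.1.2), h⟩ else 1) = 1 := by
    apply Finset.prod_eq_one
    intro e _
    rw [dif_neg e.2]
  rw [h1, h2, mul_one]

/-- Every edge occurs twice. -/
theorem prod_edj {M : Type*} [CommMonoid M] (f : Ed (k + 1) → M) :
    ∏ v : Fin (k + 1), ∏ j : Fin k, f (edj v j) = (∏ e, f e) * ∏ e, f e := by
  have h1 : ∀ v : Fin (k + 1), ∏ j : Fin k, f (edj v j) =
      ∏ w : Fin (k + 1), ((if h : v < w then f ⟨(v, w), h⟩ else 1) *
        (if h : w < v then f ⟨(w, v), h⟩ else 1)) := by
    intro v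
    rw [Fin.prod_univ_succAbove _ v]
    rw [dif_neg (lt_irrefl v), mul_one, one_mul]
    apply Finset.prod_congr rfl
    intro j _
    rcases lt_trichotomy v (v.succAbove j) with h | h | h
    · rw [edj_of_lt rfl h, dif_pos h, dif_neg (not_lt.2 h.le), mul_one]
    · exact absurd h.symm (Fin.succAbove_ne v j)
    · rw [edj_of_gt rfl h, dif_pos h, dif_neg (not_lt.2 h.le), one_mul]
  simp_rw [h1, Finset.prod_mul_distrib]
  congr 1
  · exact prod_dite_Ed f
  · rw [Finset.prod_comm]
    exact prod_dite_Ed f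

/-! ### The matrix of half-edges -/

section Lam

variable {R : Type*} [CommRing R]

/-- The matrix pairing the two halves of each edge. -/
def Lam (x : Ed (k + 1) → R) : Matrix (SS k) (SS k) R :=
  Matrix.of fun s t => if s.2.succAbove s.1 = t.2 ∧ t.2.succAbove t.1 = s.2 then
    skew x s.2 t.2 else 0

theorem Lam_antisymm (x : Ed (k + 1) → R) (s t : SS k) : Lam x s t = - Lam x t s := by
  unfold Lam
  rw [Matrix.of_apply, Matrix.of_apply]
  by_cases h : s.2.succAbove s.1 = t.2 ∧ t.2.succAbove t.1 = s.2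
  · rw [if_pos h, if_pos ⟨h.2, h.1⟩, skew_antisymm]
  · rw [if_neg h, if_neg (fun h2 => h ⟨h2.2, h2.1⟩), neg_zero]

theorem Lam_self (x : Ed (k + 1) → R) (s : SS k) : Lam x s s = 0 := by
  unfold Lam
  rw [Matrix.of_apply, if_neg]
  rintro ⟨h, -⟩
  exact Fin.succAbove_ne _ _ h

theorem Lam_map {S : Type*} [CommRing S] (x : Ed (k + 1) → R) (f : R →+* S) :
    (Lam x).map f = Lam (fun e => f (x e)) := by
  ext s t
  rw [Matrix.map_apply]
  unfold Lam
  rw [Matrix.of_apply, Matrix.of_apply, ← skew_map, Matrix.map_apply]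
  split_ifs
  · rfl
  · exact map_zero f

/-- The other half. -/
theorem exists_inv (s : SS k) : ∃ t : SS k, s.2.succAbove s.1 = t.2 ∧ t.2.succAbove t.1 = s.2 := by
  obtain ⟨j, hj⟩ := Fin.exists_succAbove_eq (x := s.2) (y := s.2.succAbove s.1)
    (Fin.succAbove_ne _ _).symm
  exact ⟨(j, s.2.succAbove s.1), rfl, hj⟩

theorem inv_unique {s t t' : SS k} (h : s.2.succAbove s.1 = t.2 ∧ t.2.succAbove t.1 = s.2)
    (h' : s.2.succAbove s.1 = t'.2 ∧ t'.2.succAbove t'.1 = s.2) : t = t' := by
  have h1 : t.2 = t'.2 := h.1.symm.trans h'.1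
  apply Prod.ext _ h1
  have h2 := h.2.trans h'.2.symm
  rw [h1] at h2
  exact Fin.succAbove_right_injective h2

theorem skew_sq (x : Ed (k + 1) → R) {s t : SS k} (h : s.2.succAbove s.1 = t.2) :
    skew x s.2 t.2 * skew x s.2 t.2 = x (edj s.2 s.1) * x (edj s.2 s.1) := by
  rcases lt_trichotomy s.2 t.2 with h1 | h1 | h1
  · rw [skew_lt _ h1, edj_of_lt h h1]
  · rw [← h1] at h
    exact absurd h (Fin.succAbove_ne _ _)
  · rw [skew_gt _ h1, edj_of_gt h h1]
    ring

theorem Lam_mul (x : Ed (k + 1) → R) : Lam x * (Lam x).transpose =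
    Matrix.diagonal (fun s : SS k => x (edj s.2 s.1) * x (edj s.2 s.1)) := by
  ext s t
  obtain ⟨r, hr⟩ := exists_inv s
  rw [Matrix.mul_apply, Finset.sum_eq_single r]
  · rw [Matrix.transpose_apply]
    by_cases hst : s = t
    · subst hst
      rw [Matrix.diagonal_apply_eq, ← skew_sq x hr.1]
      unfold Lam
      rw [Matrix.of_apply, if_pos hr]
    · rw [Matrix.diagonal_apply_ne _ hst]
      have h1 : Lam x t r = 0 := by
        unfold Lam
        rw [Matrix.of_apply, if_neg]
        intro h2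
        exact hst (inv_unique ⟨hr.2, hr.1⟩ ⟨h2.2, h2.1⟩)
      rw [h1, mul_zero]
  · intro u _ hu
    have h1 : Lam x s u = 0 := by
      unfold Lam
      rw [Matrix.of_apply, if_neg]
      intro h2
      exact hu (inv_unique h2 hr)
    rw [h1, zero_mul]
  · intro h
    exact absurd (Finset.mem_univ _) h

/-- The Pfaffian of the matrix of half-edges is plus or minus the product of the variables. -/
theorem pfS_Lam_gen (k : ℕ) : ∃ ε : ℤ, (ε = 1 ∨ ε = -1) ∧
    pfS (Lam (fun e => (X e : MvPolynomial (Ed (k + 1)) ℤ))) = C ε * ∏ e, X e := by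
  set x : Ed (k + 1) → MvPolynomial (Ed (k + 1)) ℤ := fun e => X e with hx
  set q := pfS (Lam x) with hq
  set m := ∏ e : Ed (k + 1), (X e : MvPolynomial (Ed (k + 1)) ℤ) with hm
  have h1 : q ^ 2 = (Lam x).det := pfS_sq _ (Lam_antisymm x) (Lam_self x)
  have h2 : (Lam x).det * (Lam x).det = m ^ 4 := by
    have h3 := congrArg Matrix.det (Lam_mul x)
    rw [Matrix.det_mul, Matrix.det_transpose, Matrix.det_diagonal, Fintype.prod_prod_type_right] at h3
    rw [h3]
    have h4 := prod_edj (fun e => x e * x e)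
    rw [h4, Finset.prod_mul_distrib]
    ring
  rw [← h1] at h2
  have h3 : (q ^ 2 - m ^ 2) * (q ^ 2 + m ^ 2) = 0 := by linear_combination h2
  have h4 : q ^ 2 + m ^ 2 ≠ 0 := by
    intro h
    have h5 := congrArg (eval (fun _ => (1 : ℤ))) h
    rw [map_add, map_pow, map_pow, hm, map_prod, map_zero] at h5
    simp only [eval_X, Finset.prod_const_one, one_pow] at h5
    nlinarith [sq_nonneg (eval (fun _ => (1 : ℤ)) q)]
  have h5 : q ^ 2 - m ^ 2 = 0 := (mul_eq_zero.1 h3).resolve_right h4
  have h6 : (q - m) * (q + m) = 0 := by linear_combination h5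
  rcases mul_eq_zero.1 h6 with h7 | h7
  · refine ⟨1, Or.inl rfl, ?_⟩
    rw [C_1, one_mul]
    linear_combination h7
  · refine ⟨-1, Or.inr rfl, ?_⟩
    rw [C_neg, C_1]
    linear_combination h7

end Lam

end Pool.Agent.H604R2.LEC
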