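import Pool.Agent.Helper929.Pfaffian

/-!
# The generic skew-symmetric matrix and its Pfaffian
-/

set_option autoImplicit false

namespace Pool.Agent.H604R2.LEC

open MvPolynomial Finset Pool.Agent.Helper929

/-- The edges of the complete graph on `Fin n`. -/
abbrev Ed (n : ℕ) : Type := {e : Fin n × Fin n // e.1 < e.2}

/-- The skew-symmetric matrix with given entries above the diagonal. -/
def skew {R : Type*} [CommRing R] {n : ℕ} (x : Ed n → R) : Matrix (Fin n) (Fin n) R :=
  Matrix.of fun i j => if h : i < j then x ⟨(i, j), h⟩ else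
    if h : j < i then - x ⟨(j, i), h⟩ else 0

section basic

variable {R S : Type*} [CommRing R] [CommRing S] {n : ℕ}

theorem skew_lt (x : Ed n → R) {i j : Fin n} (h : i < j) : skew x i j = x ⟨(i, j), h⟩ := by
  simp [skew, h]

theorem skew_gt (x : Ed n → R) {i j : Fin n} (h : j < i) : skew x i j = - x ⟨(j, i), h⟩ := by
  simp [skew, h, not_lt.2 h.le]

theorem skew_self (x : Ed n → R) (i : Fin n) : skew x i i = 0 := by
  simp [skew]

theorem skew_antisymm (x : Ed n → R) (i j : Fin n) : skew x i j = - skew x j i := by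
  rcases lt_trichotomy i j with h | h | h
  · rw [skew_lt x h, skew_gt x h, neg_neg]
  · subst h
    rw [skew_self, neg_zero]
  · rw [skew_lt x h, skew_gt x h]

theorem skew_map (x : Ed n → R) (f : R →+* S) : (skew x).map f = skew (fun e => f (x e)) := by
  ext i j
  rw [Matrix.map_apply]
  rcases lt_trichotomy i j with h | h | h
  · rw [skew_lt x h, skew_lt _ h]
  · subst h
    rw [skew_self, skew_self, map_zero]
  · rw [skew_gt x h, skew_gt _ h, map_neg]

/-- Every skew-symmetric matrix with zero diagonal is of this form. -/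
theorem eq_skew (A : Matrix (Fin n) (Fin n) R) (hA : ∀ i j, A i j = - A j i)
    (h0 : ∀ i, A i i = 0) : A = skew (fun e => A e.1.1 e.1.2) := by
  ext i j
  rcases lt_trichotomy i j with h | h | h
  · rw [skew_lt _ h]
  · subst h
    rw [skew_self, h0]
  · rw [skew_gt _ h, hA]

theorem pf_skew_map (x : Ed n → R) (f : R →+* S) :
    f (pf n (skew x)) = pf n (skew (fun e => f (x e))) := by
  rw [pf_map, skew_map]

end basic

/-- The square of the Pfaffian is the determinant, generic version. -/
theorem pf_sq_gen (n : ℕ) : pf n (skew (fun e => (X e : MvPolynomial (Ed n) ℤ))) ^ 2 =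
    (skew (fun e => (X e : MvPolynomial (Ed n) ℤ))).det := by
  let K := FractionRing (MvPolynomial (Ed n) ℤ)
  have hinj : Function.Injective (algebraMap (MvPolynomial (Ed n) ℤ) K) :=
    IsFractionRing.injective _ _
  have : CharZero K := charZero_of_injective_algebraMap hinj
  apply hinj
  have h1 := pf_sq n (skew (fun e => algebraMap (MvPolynomial (Ed n) ℤ) K (X e)))
    (skew_antisymm _)
  rw [map_pow, pf_skew_map, h1, ← skew_map, RingHom.map_det]
  rfl

/-- The square of the Pfaffian is the determinant. -/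
theorem pf_sq_ring {R : Type*} [CommRing R] {n : ℕ} (x : Ed n → R) :
    pf n (skew x) ^ 2 = (skew x).det := by
  have h := congrArg (aeval x : MvPolynomial (Ed n) ℤ →ₐ[ℤ] R).toRingHom (pf_sq_gen n)
  rw [map_pow, pf_skew_map, RingHom.map_det, RingHom.mapMatrix_apply, skew_map] at h
  have h1 : (fun e => (aeval x : MvPolynomial (Ed n) ℤ →ₐ[ℤ] R).toRingHom (X e)) = x := by
    funext e
    simp
  rw [h1] at h
  exact h

/-! ### Translations -/

section translate

variable {σ R : Type*} [CommRing R] (c : σ → R)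

/-- Translation of the variables. -/
noncomputable def tr : MvPolynomial σ R →ₐ[R] MvPolynomial σ R := aeval (fun e => X e + C (c e))

/-- `f` has degree at most `d`, and its translate has the same homogeneous part of degree `d`. -/
def HT (f : MvPolynomial σ R) (d : ℕ) : Prop :=
  (∀ μ : σ →₀ ℕ, d < μ.degree → coeff μ f = 0) ∧
  (∀ μ : σ →₀ ℕ, d < μ.degree → coeff μ (tr c f) = 0) ∧
  ∀ μ : σ →₀ ℕ, μ.degree = d → coeff μ (tr c f) = coeff μ f

variable {c}

theorem HT.mul {f g : MvPolynomial σ R} {d e : ℕ} (hf : HT c f d) (hg : HT c g e) :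
    HT c (f * g) (d + e) := by
  classical
  obtain ⟨f1, f2, f3⟩ := hf
  obtain ⟨g1, g2, g3⟩ := hg
  refine ⟨fun μ hμ => ?_, fun μ hμ => ?_, fun μ hμ => ?_⟩
  · rw [coeff_mul]
    apply Finset.sum_eq_zero
    intro x hx
    rw [Finset.HasAntidiagonal.mem_antidiagonal] at hx
    have h1 : x.1.degree + x.2.degree = μ.degree := by
      rw [← hx]
      exact (map_add Finsupp.degree x.1 x.2).symm
    by_cases hd : d < x.1.degree
    · rw [f1 _ hd, zero_mul]
    · rw [g1 _ (by omega), mul_zero]
  · rw [map_mul, coeff_mul]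
    apply Finset.sum_eq_zero
    intro x hx
    rw [Finset.HasAntidiagonal.mem_antidiagonal] at hx
    have h1 : x.1.degree + x.2.degree = μ.degree := by
      rw [← hx]
      exact (map_add Finsupp.degree x.1 x.2).symm
    by_cases hd : d < x.1.degree
    · rw [f2 _ hd, zero_mul]
    · rw [g2 _ (by omega), mul_zero]
  · rw [map_mul, coeff_mul, coeff_mul]
    apply Finset.sum_congr rfl
    intro x hx
    rw [Finset.HasAntidiagonal.mem_antidiagonal] at hx
    have h1 : x.1.degree + x.2.degree = μ.degree := by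
      rw [← hx]
      exact (map_add Finsupp.degree x.1 x.2).symm
    rcases lt_trichotomy d x.1.degree with hd | hd | hd
    · rw [f2 _ hd, f1 _ hd, zero_mul, zero_mul]
    · rw [f3 _ hd.symm, g3 _ (by omega)]
    · rw [g2 _ (by omega), g1 _ (by omega), mul_zero, mul_zero]

theorem HT.add {f g : MvPolynomial σ R} {d : ℕ} (hf : HT c f d) (hg : HT c g d) :
    HT c (f + g) d := by
  obtain ⟨f1, f2, f3⟩ := hf
  obtain ⟨g1, g2, g3⟩ := hg
  refine ⟨fun μ hμ => ?_, fun μ hμ => ?_, fun μ hμ => ?_⟩
  · rw [coeff_add, f1 _ hμ, g1 _ hμ, add_zero]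
  · rw [map_add, coeff_add, f2 _ hμ, g2 _ hμ, add_zero]
  · rw [map_add, coeff_add, coeff_add, f3 _ hμ, g3 _ hμ]

theorem HT.zero (d : ℕ) : HT c (0 : MvPolynomial σ R) d := by
  refine ⟨fun μ hμ => ?_, fun μ hμ => ?_, fun μ hμ => ?_⟩ <;> simp

theorem HT.sum {ι : Type*} (s : Finset ι) (f : ι → MvPolynomial σ R) (d : ℕ)
    (h : ∀ i ∈ s, HT c (f i) d) : HT c (∑ i ∈ s, f i) d := by
  classical
  induction s using Finset.induction_on with
  | empty => simpa using HT.zero d
  | insert a s ha ih =>
    rw [Finset.sum_insert ha]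
    exact (h a (Finset.mem_insert_self _ _)).add
      (ih fun i hi => h i (Finset.mem_insert_of_mem hi))

theorem HT.const (a : R) : HT c (C a : MvPolynomial σ R) 0 := by
  classical
  have h0 : ∀ μ : σ →₀ ℕ, 0 < μ.degree → coeff μ (C a : MvPolynomial σ R) = 0 := by
    intro μ hμ
    rw [coeff_C, if_neg]
    intro h
    rw [← h] at hμ
    simp at hμ
  refine ⟨h0, fun μ hμ => ?_, fun μ _ => ?_⟩
  · rw [tr, aeval_C]
    exact h0 μ hμ
  · rw [tr, aeval_C]
    rfl

theorem HT.one : HT c (1 : MvPolynomial σ R) 0 := by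
  rw [← C_1]
  exact HT.const 1

theorem HT.X (e : σ) : HT c (X e : MvPolynomial σ R) 1 := by
  classical
  have h0 : ∀ μ : σ →₀ ℕ, 1 < μ.degree → coeff μ (MvPolynomial.X e : MvPolynomial σ R) = 0 := by
    intro μ hμ
    rw [coeff_X, if_neg]
    intro h
    rw [← h] at hμ
    simp at hμ
  have h1 : ∀ μ : σ →₀ ℕ, 1 ≤ μ.degree → coeff μ (C (c e) : MvPolynomial σ R) = 0 := by
    intro μ hμ
    rw [coeff_C, if_neg]
    intro h
    rw [← h] at hμ
    simp at hμ
  refine ⟨h0, fun μ hμ => ?_, fun μ hμ => ?_⟩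
  · rw [tr, aeval_X, coeff_add, h0 μ hμ, h1 μ hμ.le, add_zero]
  · rw [tr, aeval_X, coeff_add, h1 μ hμ.ge, add_zero]

theorem HT.pow {f : MvPolynomial σ R} {d : ℕ} (hf : HT c f d) (k : ℕ) : HT c (f ^ k) (k * d) := by
  induction k with
  | zero => simpa using HT.one
  | succ k ih =>
    rw [pow_succ, Nat.succ_mul]
    exact ih.mul hf

theorem HT.neg {f : MvPolynomial σ R} {d : ℕ} (hf : HT c f d) : HT c (-f) d := by
  obtain ⟨f1, f2, f3⟩ := hf
  refine ⟨fun μ hμ => ?_, fun μ hμ => ?_, fun μ hμ => ?_⟩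
  · rw [coeff_neg, f1 _ hμ, neg_zero]
  · rw [map_neg, coeff_neg, f2 _ hμ, neg_zero]
  · rw [map_neg, coeff_neg, coeff_neg, f3 _ hμ]

theorem HT.pf : ∀ (n : ℕ) (A : Matrix (Fin n) (Fin n) (MvPolynomial σ R)),
    (∀ i j, HT c (A i j) 1) → HT c (Helper929.pf n A) (n / 2)
  | 0, A, _ => by simpa [Helper929.pf] using HT.one
  | 1, A, _ => by simpa [Helper929.pf] using HT.zero 0
  | (n + 2), A, hA => by
    rw [Helper929.pf]
    apply HT.sum
    intro j _
    have h1 : HT c (((-1 : MvPolynomial σ R) ^ (j : ℕ))) 0 := by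
      have := (HT.one (c := c)).neg.pow (j : ℕ)
      simpa using this
    have h2 : (n + 2) / 2 = 0 + 1 + n / 2 := by omega
    rw [h2]
    exact (h1.mul (hA _ _)).mul (HT.pf n _ fun a b => hA _ _)

end translate

/-- The multilinear monomial. -/
noncomputable def one' (n : ℕ) : Ed n →₀ ℕ := Finsupp.equivFunOnFinite.symm fun _ => 1

theorem one'_apply {n : ℕ} (e : Ed n) : one' n e = 1 := rfl

theorem one'_degree (n : ℕ) : (one' n).degree = Fintype.card (Ed n) := by
  rw [Finsupp.degree_eq_sum]
  simp [one'_apply]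

theorem skew_HT {R : Type*} [CommRing R] {n : ℕ} (c : Ed n → R) (i j : Fin n) :
    HT c (skew (fun e => (X e : MvPolynomial (Ed n) R)) i j) 1 := by
  rcases lt_trichotomy i j with h | h | h
  · rw [skew_lt _ h]; exact HT.X _
  · subst h
    rw [skew_self]
    exact HT.zero 1
  · rw [skew_gt _ h]; exact (HT.X _).neg

/-- The multilinear coefficient of a power of the Pfaffian is translation invariant. -/
theorem coeff_tr_pf {R : Type*} [CommRing R] {n : ℕ} (c : Ed n → R) (k : ℕ)
    (hk : Fintype.card (Ed n) = k * (n / 2)) :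
    coeff (one' n) (pf n (skew (fun e => X e + C (c e))) ^ k) =
      coeff (one' n) (pf n (skew (fun e => (X e : MvPolynomial (Ed n) R))) ^ k) := by
  have h := ((HT.pf n _ (skew_HT c)).pow k).2.2 (one' n) (by rw [one'_degree, hk])
  rw [← h, map_pow]
  congr 2
  have h2 := pf_skew_map (fun e => (X e : MvPolynomial (Ed n) R)) (tr c).toRingHom
  change tr c _ = _ at h2
  rw [h2]
  congr 2
  funext e
  simp [tr]

section modp

variable {p : ℕ} [Fact p.Prime]

/-- If the multilinear coefficient of `det (X + J) ^ (p - 1)` is not zero, then the multilinear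
coefficient of `Pf (X) ^ (p - 2)` is not zero. -/
theorem pf_of_det {n : ℕ} (c : Ed n → ZMod p) (hk : Fintype.card (Ed n) = (p - 2) * (n / 2))
    (h : coeff (one' n) ((skew (fun e => (X e + C (c e) : MvPolynomial (Ed n) (ZMod p)))).det ^
      (p - 1)) ≠ 0) :
    coeff (one' n) (pf n (skew (fun e => (X e : MvPolynomial (Ed n) (ZMod p)))) ^ (p - 2)) ≠ 0 := by
  classical
  intro h0
  apply h
  have hp : 2 ≤ p := (Fact.out : p.Prime).two_le
  rw [← pf_sq_ring, ← pow_mul]
  have h1 : 2 * (p - 1) = (p - 2) + p := by omega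
  rw [h1, pow_add, ← expand_zmod, coeff_mul]
  rw [Finset.sum_eq_single (one' n, 0)]
  · simp only
    rw [coeff_tr_pf c (p - 2) hk, h0, zero_mul]
  · rintro ⟨a, b⟩ hab hne
    rw [Finset.HasAntidiagonal.mem_antidiagonal] at hab
    simp only at hab ⊢
    have hb : b ≠ 0 := by
      rintro rfl
      apply hne
      rw [add_zero] at hab
      rw [hab]
    obtain ⟨e, he⟩ : ∃ e, b e ≠ 0 := by
      by_contra hcon
      push Not at hcon
      exact hb (Finsupp.ext hcon)
    have hbe : b e = 1 := by
      have h2 := DFunLike.congr_fun hab e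
      rw [Finsupp.add_apply, one'_apply] at h2
      omega
    rw [coeff_expand_of_not_dvd (i := e), mul_zero]
    rw [hbe, Nat.dvd_one]
    omega
  · intro hcon
    exfalso
    apply hcon
    rw [Finset.HasAntidiagonal.mem_antidiagonal]
    exact add_zero _

end modp

end Pool.Agent.H604R2.LEC
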